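import Pool.Agent.U797.NL.Spec2
import Pool.Agent.U797.LV.Rand

set_option autoImplicit false

/-!
# The random colouring of the cells, general form
-/

namespace Pool.Agent.U797.NL

open Finset
open scoped Classical
open Pool.Agent.U797.LV Pool.Agent.Helper635.LLL

theorem cells_aux {I : Type} [Fintype I] {V T : Type} {K m s r d : ℕ} {e : T × Fin K → I}
    (he : Function.Injective e) (hm : 1 ≤ m) (hs : 1 ≤ s)
    (hr : 8 * r ≤ m * s) (X : Finset V) (S R : V → Finset T) (hS : ∀ v ∈ X, (S v).card = s)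
    (hR : ∀ v ∈ X, (R v).card ≤ r) (hSR : ∀ v ∈ X, Disjoint (S v) (R v)) (hd1 : 1 ≤ d)
    (hd : ∀ v ∈ X, (X.filter (fun u => ¬ Disjoint (S v ∪ R v) (S u ∪ R u))).card ≤ d)
    (hK : 4 * d ≤ 2 ^ K) :
    ∃ f : V → ℕ, ∀ v ∈ X, f v < K * m ∧ ∃ c ∈ S v, ∀ u ∈ X, f v = f u → c ∉ R u := by
  have hms : 0 < m * s := Nat.mul_pos hm hs
  have : Nonempty (Fin (m * s)) := ⟨⟨0, hms⟩⟩
  obtain ⟨ω, hω⟩ := lll (T := I) (C := Fin (m * s)) X
    (fun v ω => ∀ t ∈ (univ : Finset (Fin K)), ¬ Gd m e (S v) (R v) t ω)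
    (fun v => ((S v ∪ R v) ×ˢ univ).image e) (by
      intro v _ ω ω' h hg t ht hg'
      apply hg t ht
      refine gd_dep t ω' ω ?_ hg'
      intro c hc
      exact (h (e (c, t)) (mem_image_of_mem e (by
        simp only [mem_product, mem_univ, and_true]
        exact hc))).symm)
    ((1 / 2) ^ K) d (by positivity) (by
      intro v hv
      have := many he hm hs hr (hS v hv) (hR v hv) (hSR v hv) univ
      rw [card_univ, Fintype.card_fin] at this
      exact this) (by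
      intro v hv
      refine le_trans (card_le_card ?_) (hd v hv)
      intro u hu
      rw [mem_filter] at hu ⊢
      refine ⟨hu.1, fun h => hu.2 ?_⟩
      rw [disjoint_left] at h ⊢
      intro z hz hz'
      rw [mem_image] at hz hz'
      obtain ⟨a, ha, rfl⟩ := hz
      obtain ⟨b, hb, hab⟩ := hz'
      have h2 := he hab
      rw [h2] at hb
      rw [mem_product] at ha hb
      exact h ha.1 hb.1) (by
      have h1 : (4 : ℝ) * d ≤ 2 ^ K := by exact_mod_cast hK
      have h2 : (0 : ℝ) < 2 ^ K := by positivity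
      rw [one_div, inv_pow]
      have h3 : 4 * ((2 : ℝ) ^ K)⁻¹ * d = (4 * d) * ((2 : ℝ) ^ K)⁻¹ := by ring
      rw [h3, ← div_eq_mul_inv, div_le_one h2]
      exact h1) hd1 Fintype.card_pos
  have h1 : ∀ v ∈ X, ∃ t : Fin K, Gd m e (S v) (R v) t ω := by
    intro v hv
    have := hω v hv
    push Not at this
    obtain ⟨t, _, ht⟩ := this
    exact ⟨t, ht⟩
  have h2 : ∀ v : V, ∃ q : ℕ, v ∈ X → ∃ (t : Fin K) (c : T), Gd m e (S v) (R v) t ω ∧ c ∈ S v ∧
      (ω (e (c, t)) : ℕ) < m ∧ q = t * m + ω (e (c, t)) := by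
    intro v
    by_cases hv : v ∈ X
    · obtain ⟨t, ht⟩ := h1 v hv
      obtain ⟨c, hc1, hc2⟩ := ht.1
      exact ⟨t * m + ω (e (c, t)), fun _ => ⟨t, c, ht, hc1, hc2, rfl⟩⟩
    · exact ⟨0, fun h => absurd h hv⟩
  choose f hf using h2
  refine ⟨f, ?_⟩
  intro v hv
  obtain ⟨t, c, h3, h4, h5, h6⟩ := hf v hv
  refine ⟨?_, c, h4, ?_⟩
  · rw [h6]
    have h7 := t.2
    calc (t : ℕ) * m + ω (e (c, t)) < t * m + m := by omega
      _ = (t + 1) * m := by ring
      _ ≤ K * m := Nat.mul_le_mul_right _ h7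
  · intro u hu heq hcR
    obtain ⟨t', c', h3', h4', h5', h6'⟩ := hf u hu
    rw [h6, h6'] at heq
    have h7 : (t : ℕ) = t' := by
      have e1 : ((t : ℕ) * m + ω (e (c, t))) / m = t := by
        rw [mul_comm, Nat.mul_add_div (by omega), Nat.div_eq_of_lt h5, add_zero]
      have e2 : ((t' : ℕ) * m + ω (e (c', t'))) / m = t' := by
        rw [mul_comm, Nat.mul_add_div (by omega), Nat.div_eq_of_lt h5', add_zero]
      rw [← e1, ← e2, heq]
    have h8 : t = t' := Fin.ext h7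
    subst h8
    have h9 : (ω (e (c, t)) : ℕ) = ω (e (c', t)) := by omega
    exact h3'.2 c' h4' h5' c hcR (Fin.ext h9)

theorem t_CELLS : S_CELLS := by
  intro V T _ K m s r d hm hs hr X S R hS hR hSR hd1 hloc hK
  refine cells_aux (I := T × Fin K) (e := id) Function.injective_id hm hs hr X S R hS hR hSR hd1 ?_ hK
  intro v hv
  obtain ⟨U, hU1, hU2⟩ := hloc v hv
  refine (card_le_card ?_).trans hU1
  intro u hu
  rw [mem_filter, not_disjoint_iff] at hu
  obtain ⟨hu1, c, hc1, hc2⟩ := hu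
  rw [mem_union] at hc1 hc2
  exact hU2 u hu1 c hc1 hc2

end Pool.Agent.U797.NL
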