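import Pool.Agent.U797.NL.Spec

set_option autoImplicit false

/-!
# One step of the iteration
-/

namespace Pool.Agent.U797.NL

open Finset
open scoped Classical
open Pool.Agent.U797.LV (nb mem_nb)

/-- the exponents -/
def st (K : ℕ) : ℕ → ℕ × ℕ
  | 0 => (K + 1, 0)
  | j + 1 => ((st K j).1 + K * (2 * (st K j).1 + (st K j).2 + 9) + 4,
      (st K j).1 + K * (2 * (st K j).1 + (st K j).2 + 9) + 4)

/-- the cost -/
def cst (K j : ℕ) : ℕ := 2 * (st K j).1 + (st K j).2 + 9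

theorem exists_max {V : Type} [Fintype V] (hR : S_R) (G : SimpleGraph V) {b : ℝ} (hb : 0 < b)
    (i : ℕ) {B : ℝ} (hB : 0 < B) (v : V) :
    ∃ L : Finset V, L ⊆ nb G v ∧ Rich G b i B v L ∧
      ∀ C ⊆ nb G v \ L, C.Nonempty → ¬ Rich G b i B v C := by
  have hsub : ∀ (i : ℕ) (B : ℝ) (v : V) (C : Finset V), Rich G b i B v C → C ⊆ nb G v := by
    intro i B v C h
    cases i with
    | zero => exact h
    | succ i => exact h.1
  have hempty : Rich G b i B v ∅ := by
    cases i with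
    | zero => exact empty_subset _
    | succ i => exact ⟨empty_subset _, fun _ => ∅, by simp, by simp⟩
  obtain ⟨L, hL1, hL2⟩ := exists_max_image (univ.filter (fun C => Rich G b i B v C)) card
    ⟨∅, by rw [mem_filter]; exact ⟨mem_univ _, hempty⟩⟩
  rw [mem_filter] at hL1
  refine ⟨L, hsub _ _ _ _ hL1.2, hL1.2, ?_⟩
  intro C hC hCn hCr
  have hdis : Disjoint L C := by
    rw [disjoint_left]
    intro x hx hxC
    exact (mem_sdiff.1 (hC hxC)).2 hx
  have h1 := (hR V G b hb).2.2.1 i B v L C hB hdis hL1.2 hCr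
  have h2 := hL2 (L ∪ C) (by rw [mem_filter]; exact ⟨mem_univ _, h1⟩)
  rw [card_union_of_disjoint hdis] at h2
  have := card_pos.2 hCn
  omega

/-- trimming -/
theorem low_case {V : Type} [Fintype V] (G : SimpleGraph V) {D q : ℝ} (hD : 1 ≤ D) (hq : 2 ≤ q)
    (K : ℕ) (h : ∑ v, ((nb G v).card : ℝ) < (q ^ (K + 1))⁻¹ * (Fintype.card V : ℝ) * D) :
    ∃ U : Finset V, (Fintype.card V : ℝ) ≤ q ^ 1 * (U.card : ℝ) ∧
      ∀ y ∈ U, ((nb G y ∩ U).card : ℝ) ≤ D / q ^ (1 * K) := by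
  have hq0 : 0 < q := by linarith
  refine ⟨univ.filter (fun v => ((nb G v).card : ℝ) ≤ D / q ^ K), ?_, ?_⟩
  · have h1 : ((univ.filter (fun v => ¬ ((nb G v).card : ℝ) ≤ D / q ^ K)).card : ℝ) * (D / q ^ K) ≤
        ∑ v, ((nb G v).card : ℝ) := by
      calc _ = ∑ v ∈ univ.filter (fun v => ¬ ((nb G v).card : ℝ) ≤ D / q ^ K), D / q ^ K := by
            rw [sum_const, nsmul_eq_mul]
        _ ≤ ∑ v ∈ univ.filter (fun v => ¬ ((nb G v).card : ℝ) ≤ D / q ^ K), ((nb G v).card : ℝ) := by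
            refine sum_le_sum fun v hv => ?_
            rw [mem_filter] at hv
            exact (not_le.1 hv.2).le
        _ ≤ _ := sum_le_sum_of_subset_of_nonneg (filter_subset _ _) fun _ _ _ => Nat.cast_nonneg _
    have h2 : ((univ.filter (fun v => ((nb G v).card : ℝ) ≤ D / q ^ K)).card : ℝ) +
        ((univ.filter (fun v => ¬ ((nb G v).card : ℝ) ≤ D / q ^ K)).card : ℝ) = Fintype.card V := by
      rw [← Nat.cast_add, card_filter_add_card_filter_not]
      rfl
    obtain ⟨x, hx⟩ : ∃ x : ℝ, x =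
      ((univ.filter (fun v => ((nb G v).card : ℝ) ≤ D / q ^ K)).card : ℝ) := ⟨_, rfl⟩
    obtain ⟨z, hz⟩ : ∃ z : ℝ, z =
      ((univ.filter (fun v => ¬ ((nb G v).card : ℝ) ≤ D / q ^ K)).card : ℝ) := ⟨_, rfl⟩
    rw [← hz] at h1
    rw [← hx, ← hz] at h2
    rw [← hx]
    obtain ⟨m, hm⟩ : ∃ m : ℝ, m = (Fintype.card V : ℝ) := ⟨_, rfl⟩
    rw [← hm] at h h2 ⊢
    have hm0 : 0 ≤ m := by rw [hm]; exact Nat.cast_nonneg _
    have h3 : z * (D / q ^ K) < (q ^ (K + 1))⁻¹ * m * D := lt_of_le_of_lt h1 h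
    have h4 : z * q < m := by
      have h5 : z * (D / q ^ K) = (z * q) * (D / q ^ (K + 1)) := by
        rw [pow_succ]
        field_simp
      have h6 : (q ^ (K + 1))⁻¹ * m * D = m * (D / q ^ (K + 1)) := by
        field_simp
      rw [h5, h6] at h3
      exact lt_of_mul_lt_mul_right h3 (by positivity)
    rw [pow_one]
    have hz0 : 0 ≤ z := by rw [hz]; exact Nat.cast_nonneg _
    nlinarith
  · intro y hy
    rw [mem_filter] at hy
    rw [one_mul]
    refine le_trans ?_ hy.2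
    exact_mod_cast card_le_card inter_subset_left

theorem t_PROG (hR : S_R) (hE : S_EMB) (hP : S_POT) (hKi : S_KILL) : S_PROG := by
  intro n k K T hk hK hT
  obtain ⟨b0, hb0, hemb⟩ := hE n k T hk hT
  obtain ⟨E, hEd⟩ : ∃ E : ℕ, E = 1 + ∑ j ∈ range (n + 2), cst K j := ⟨_, rfl⟩
  refine ⟨E, by omega, b0 + 16 + 3 * (1 + E), by
    have : (0 : ℝ) ≤ E := Nat.cast_nonneg _
    linarith, ?_⟩
  intro q hq V _ G D hD hdeg hfree hTG hnbd
  have hE0 : (0 : ℝ) ≤ E := Nat.cast_nonneg _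
  have hq16 : 16 ≤ q := by linarith
  have hqE : 3 * (1 + (E : ℝ)) ≤ q := by linarith
  have hqb : b0 ≤ q := by linarith
  have hq0 : 0 < q := by linarith
  have hq1 : 1 ≤ q := by linarith
  have hcE : ∀ j < n + 2, cst K j ≤ E := by
    intro j hj
    rw [hEd]
    have := single_le_sum (f := fun j => cst K j) (fun j _ => Nat.zero_le _) (mem_range.2 hj)
    omega
  -- the level sets
  obtain ⟨bp, hbp⟩ : ∃ bp : ℕ → ℝ, bp = fun i => q ^ (1 + (st K (n + 1 - i)).2) := ⟨_, rfl⟩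
  have hbp0 : ∀ i, 0 < bp i := by
    intro i
    rw [hbp]
    positivity
  choose Lv hL1 hL2 hL3 using fun i v => exists_max hR G hq0 i (hbp0 i) v
  obtain ⟨m, hm⟩ : ∃ m : ℝ, m = (Fintype.card V : ℝ) := ⟨_, rfl⟩
  rcases isEmpty_or_nonempty V with hV | hV
  · refine ⟨1, ∅, le_rfl, by omega, ?_, by simp⟩
    rw [Fintype.card_eq_zero]
    simp
  have hmpos : 0 < m := by
    rw [hm]
    exact_mod_cast Fintype.card_pos
  obtain ⟨Ns, hNs⟩ : ∃ Ns : ℕ → ℝ, Ns = fun i => ∑ v, ((nb G v \ Lv i v).card : ℝ) := ⟨_, rfl⟩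
  obtain ⟨th, hth⟩ : ∃ th : ℕ → ℝ, th = fun i => (q ^ (st K (n + 1 - i)).1)⁻¹ * m * D := ⟨_, rfl⟩
  have hthpos : ∀ i, 0 < th i := by
    intro i
    rw [hth]
    positivity
  have hN0 : Ns 0 < th 0 := by
    have : Ns 0 = 0 := by
      rw [hNs]
      refine sum_eq_zero fun v _ => ?_
      by_contra h
      have h1 : (nb G v \ Lv 0 v).Nonempty := by
        rw [nonempty_iff_ne_empty]
        intro h2
        apply h
        rw [h2]
        simp
      exact hL3 0 v _ (subset_refl _) h1 sdiff_subset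
    rw [this]
    exact hthpos 0
  have hLh : ∀ v, Lv (n + 1) v = ∅ := by
    intro v
    by_contra h
    have h1 := hL2 (n + 1) v
    have h2 : bp (n + 1) = q := by
      rw [hbp]
      simp [st]
    rw [h2] at h1
    exact hTG (hemb q hqb V G hfree v _ (nonempty_iff_ne_empty.2 h) h1)
  by_cases hlow : Ns (n + 1) < th (n + 1)
  · have h1 : Ns (n + 1) = ∑ v, ((nb G v).card : ℝ) := by
      rw [hNs]
      refine sum_congr rfl fun v _ => ?_
      rw [hLh, sdiff_empty]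
    have h2 : th (n + 1) = (q ^ (K + 1))⁻¹ * (Fintype.card V : ℝ) * D := by
      rw [hth, ← hm]
      simp [st]
    rw [h1, h2] at hlow
    obtain ⟨U, hU1, hU2⟩ := low_case G hD (by linarith) K hlow
    exact ⟨1, U, le_rfl, by omega, hU1, hU2⟩
  push Not at hlow
  have hex : ∃ i, th i ≤ Ns i := ⟨n + 1, hlow⟩
  obtain ⟨i, hi⟩ : ∃ i, Nat.find hex = i + 1 := by
    have : Nat.find hex ≠ 0 := by
      intro h
      have := Nat.find_spec hex
      rw [h] at this
      linarith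
    exact ⟨Nat.find hex - 1, by omega⟩
  have hile : i + 1 ≤ n + 1 := by
    rw [← hi]
    exact Nat.find_min' hex hlow
  have hN1 : th (i + 1) ≤ Ns (i + 1) := by
    rw [← hi]
    exact Nat.find_spec hex
  have hN2 : Ns i < th i := by
    have := Nat.find_min hex (m := i) (by omega)
    exact not_le.1 this
  -- the exponents
  obtain ⟨j, hj⟩ : ∃ j, n + 1 - (i + 1) = j := ⟨_, rfl⟩
  have hj' : n + 1 - i = j + 1 := by omega
  obtain ⟨A, hA⟩ : ∃ A, A = (st K j).1 := ⟨_, rfl⟩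
  obtain ⟨e, he⟩ : ∃ e, e = (st K j).2 := ⟨_, rfl⟩
  obtain ⟨c, hc⟩ : ∃ c, c = cst K j := ⟨_, rfl⟩
  have hc' : c = 2 * A + e + 9 := by
    rw [hc, hA, he]
    rfl
  obtain ⟨A', hA'⟩ : ∃ A', A' = A + K * c + 4 := ⟨_, rfl⟩
  have hst1 : (st K (j + 1)).1 = A' := by
    rw [hA', hA, hc]
    rfl
  have hst2 : (st K (j + 1)).2 = A' := by
    rw [hA', hA, hc]
    rfl
  have hbpi : bp i = q ^ (1 + A') := by
    rw [hbp]
    dsimp only
    rw [hj', hst2]
  have hbpi1 : bp (i + 1) = q ^ (1 + e) := by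
    rw [hbp]
    dsimp only
    rw [hj, ← he]
  have hthi : th i = (q ^ A')⁻¹ * m * D := by
    rw [hth]
    dsimp only
    rw [hj', hst1]
  have hthi1 : th (i + 1) = (q ^ A)⁻¹ * m * D := by
    rw [hth]
    dsimp only
    rw [hj, ← hA]
  have hA'E : (A' : ℝ) ≤ E := by
    have h1 := hcE (j + 1) (by omega)
    have h2 : A' ≤ cst K (j + 1) := by
      unfold cst
      rw [hst1]
      omega
    exact_mod_cast h2.trans h1
  -- the covering of the neighbourhoods
  obtain ⟨Z, hZ⟩ : ∃ Z : V → Finset V, Z = fun a => nb G a \ Lv (i + 1) a := ⟨_, rfl⟩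
  obtain ⟨η, hη⟩ : ∃ η : ℝ, η = (q ^ A')⁻¹ := ⟨_, rfl⟩
  have hη0 : 0 < η := by rw [hη]; positivity
  have hη1 : η ≤ 1 := by
    rw [hη]
    exact inv_le_one_of_one_le₀ (one_le_pow₀ hq1)
  have hlog : Real.log (1 / η) ≤ A' * q := by
    rw [hη, one_div, inv_inv, Real.log_pow]
    apply mul_le_mul_of_nonneg_left _ (Nat.cast_nonneg _)
    have := Real.log_le_sub_one_of_pos hq0
    linarith
  obtain ⟨Tn, hTn⟩ : ∃ Tn : ℕ, Tn = ⌈2 * (q ^ (1 + e) * (1 + Real.log (1 / η)))⌉₊ := ⟨_, rfl⟩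
  have hlog0 : 0 ≤ Real.log (1 / η) := by
    apply Real.log_nonneg
    rw [one_div]
    exact (one_le_inv₀ hη0).2 hη1
  have hTn1 : 2 * (q ^ (1 + e) * (1 + Real.log (1 / η))) ≤ (Tn : ℝ) := by
    rw [hTn]
    exact Nat.le_ceil _
  have hTn2 : (Tn : ℝ) ≤ q ^ (e + 3) := by
    have h1 : (Tn : ℝ) ≤ 2 * (q ^ (1 + e) * (1 + Real.log (1 / η))) + 1 := by
      rw [hTn]
      exact (Nat.ceil_lt_add_one (by positivity)).le
    have h2 : q ^ (1 + e) * (1 + Real.log (1 / η)) ≤ q ^ (1 + e) * (1 + E * q) := by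
      apply mul_le_mul_of_nonneg_left _ (by positivity)
      have : (A' : ℝ) * q ≤ E * q := mul_le_mul_of_nonneg_right hA'E hq0.le
      linarith
    have h3 : (1 : ℝ) ≤ q ^ (1 + e) * (1 + E * q) := by
      have h4 : (1 : ℝ) ≤ q ^ (1 + e) := one_le_pow₀ hq1
      have h5 : (1 : ℝ) ≤ 1 + E * q := by
        have : 0 ≤ (E : ℝ) * q := by positivity
        linarith
      nlinarith
    have h6 : 3 * (1 + (E : ℝ) * q) ≤ q * q := by
      have h7 : 1 + (E : ℝ) * q ≤ (1 + E) * q := by nlinarith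
      calc 3 * (1 + (E : ℝ) * q) ≤ 3 * ((1 + E) * q) := by linarith
        _ = (3 * (1 + E)) * q := by ring
        _ ≤ q * q := mul_le_mul_of_nonneg_right hqE hq0.le
    calc (Tn : ℝ) ≤ 3 * (q ^ (1 + e) * (1 + E * q)) := by linarith
      _ = q ^ (1 + e) * (3 * (1 + E * q)) := by ring
      _ ≤ q ^ (1 + e) * (q * q) := mul_le_mul_of_nonneg_left h6 (by positivity)
      _ = q ^ (e + 3) := by ring
  have hpot : ∀ a, ∃ U : Finset V, U.card ≤ Tn ∧
      (((Z a).filter (fun y => η * ((Lv i y).card : ℝ) <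
        ((Lv i y \ U.biUnion (nb G)).card : ℝ))).card : ℝ) ≤ (1 / 2) * ((Z a).card : ℝ) := by
    intro a
    apply hP V G i Tn q (bp i) (bp (i + 1)) η (1 / 2) a (Lv i) (Z a) hq0 (hbp0 _) (hbp0 _) hη0 hη1
      (by norm_num)
    · rw [hbpi, hη, pow_add, pow_one]
      field_simp
      exact le_rfl
    · rw [hZ]
      exact sdiff_subset
    · intro y _
      exact hL2 i y
    · intro C hC hCn
      apply hL3 (i + 1) a C _ hCn
      rw [hZ] at hC
      exact hC
    · rw [hbpi1]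
      linarith
  choose Uc hUc1 hUc2 using hpot
  obtain ⟨R, hR'⟩ : ∃ R : V → Finset V, R = fun a => (Uc a).biUnion (nb G) := ⟨_, rfl⟩
  obtain ⟨Dd, hDd⟩ : ∃ Dd : V → Finset V, Dd = fun a => (Z a).filter (fun y =>
      ¬ η * ((Lv i y).card : ℝ) < ((Lv i y \ R a).card : ℝ)) := ⟨_, rfl⟩
  have hDdsub : ∀ a, Dd a ⊆ nb G a := by
    intro a y hy
    rw [hDd, mem_filter, hZ] at hy
    exact (mem_sdiff.1 hy.1).1
  have hDdcard : ∀ a, (1 / 2) * ((Z a).card : ℝ) ≤ ((Dd a).card : ℝ) := by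
    intro a
    have h1 := hUc2 a
    have h2 : (((Z a).filter (fun y => η * ((Lv i y).card : ℝ) < ((Lv i y \ R a).card : ℝ))).card : ℝ)
        + ((Dd a).card : ℝ) = (Z a).card := by
      rw [hDd, ← Nat.cast_add, card_filter_add_card_filter_not]
    rw [hR'] at h2
    dsimp only at h2
    linarith
  choose Ic hIc1 hIc2 hIc3 using fun a => hnbd a (Dd a) (hDdsub a)
  have hkill := hKi V G D (q ^ (e + 3)) ((q ^ (A + 2))⁻¹) ((q ^ A')⁻¹) ((q ^ A')⁻¹)
    ((q ^ (K * c + 1))⁻¹) (Lv i) Ic R hD (one_le_pow₀ hq1) (by positivity)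
    (inv_le_one_of_one_le₀ (one_le_pow₀ hq1)) (by positivity) (by positivity) (by positivity)
    (by
      have h1 : (q ^ (A + 2))⁻¹ * (q ^ (K * c + 1))⁻¹ = (q ^ A')⁻¹ * q := by
        rw [hA']
        have h2 : q ^ (A + K * c + 4) = q ^ (A + 2) * q ^ (K * c + 1) * q := by ring
        rw [h2]
        field_simp
      rw [h1]
      have h2 : 0 < (q ^ A')⁻¹ := by positivity
      nlinarith)
    hdeg (fun a => (hIc1 a).trans (hDdsub a)) hIc2
    (by
      intro a
      have h1 : (R a).card ≤ ∑ u ∈ Uc a, (nb G u).card := by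
        rw [hR']
        exact card_biUnion_le
      calc ((R a).card : ℝ) ≤ ((∑ u ∈ Uc a, (nb G u).card : ℕ) : ℝ) := by exact_mod_cast h1
        _ = ∑ u ∈ Uc a, ((nb G u).card : ℝ) := by push_cast; rfl
        _ ≤ ∑ u ∈ Uc a, D := sum_le_sum fun u _ => hdeg u
        _ = ((Uc a).card : ℝ) * D := by rw [sum_const, nsmul_eq_mul]
        _ ≤ (Tn : ℝ) * D := by
          apply mul_le_mul_of_nonneg_right _ (by linarith)
          exact_mod_cast hUc1 a
        _ ≤ q ^ (e + 3) * D := mul_le_mul_of_nonneg_right hTn2 (by linarith))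
    (by
      intro a y hy
      have h1 := hIc1 a hy
      rw [hDd, mem_filter, not_lt] at h1
      refine h1.2.trans ?_
      rw [← hη]
      apply mul_le_mul_of_nonneg_left _ hη0.le
      refine le_trans ?_ (hdeg y)
      exact_mod_cast card_le_card (hL1 i y))
    (by
      have h1 : ∀ a, (1 / (2 * q)) * ((Z a).card : ℝ) ≤ ((Ic a).card : ℝ) := by
        intro a
        have h2 := hIc3 a
        have h3 := hDdcard a
        have h4 : (1 / 2) * ((Z a).card : ℝ) ≤ q * ((Ic a).card : ℝ) := h3.trans h2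
        have h5 : (1 / (2 * q)) * ((Z a).card : ℝ) = ((1 / 2) * ((Z a).card : ℝ)) / q := by
          field_simp
        rw [h5, div_le_iff₀ hq0]
        linarith
      have h6 : (1 / (2 * q)) * Ns (i + 1) ≤ ∑ a, ((Ic a).card : ℝ) := by
        rw [hNs, mul_sum]
        refine sum_le_sum fun a _ => ?_
        have := h1 a
        rw [hZ] at this
        exact this
      refine le_trans ?_ h6
      rw [← hm]
      have h7 : (1 / (2 * q)) * ((q ^ A)⁻¹ * m * D) ≤ (1 / (2 * q)) * Ns (i + 1) := by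
        apply mul_le_mul_of_nonneg_left _ (by positivity)
        rw [← hthi1]
        exact hN1
      refine le_trans ?_ h7
      have h8 : (q ^ (A + 2))⁻¹ = (q ^ A)⁻¹ * (1 / q) * (1 / q) := by
        rw [pow_add]
        field_simp
      have h9 : (1 / (2 * q)) = (1 / 2) * (1 / q) := by field_simp
      rw [h8, h9]
      have h10 : 1 / q ≤ 1 / 2 := by
        apply one_div_le_one_div_of_le (by norm_num)
        linarith
      have h11 : 0 ≤ (q ^ A)⁻¹ * (1 / q) * m * D := by positivity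
      calc (q ^ A)⁻¹ * (1 / q) * (1 / q) * m * D = (1 / q) * ((q ^ A)⁻¹ * (1 / q) * m * D) := by ring
        _ ≤ (1 / 2) * ((q ^ A)⁻¹ * (1 / q) * m * D) := mul_le_mul_of_nonneg_right h10 h11
        _ = 1 / 2 * (1 / q) * ((q ^ A)⁻¹ * m * D) := by ring)
    (by
      rw [← hm, ← hthi]
      have := hN2.le
      rw [hNs] at this
      exact this)
  obtain ⟨U, hU1, hU2⟩ := hkill
  rw [← hm] at hU1 ⊢
  refine ⟨c, U, by omega, ?_, ?_, ?_⟩
  · rw [hc]
    exact hcE j (by omega)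
  · have h1 : m ≤ 208 * q ^ (e + 3) * (q ^ (A + 2)) ^ 2 * U.card := by
      have h2 : (q ^ (A + 2))⁻¹ ^ 2 * m * (q ^ (A + 2)) ^ 2 = m := by
        field_simp
      calc m = (q ^ (A + 2))⁻¹ ^ 2 * m * (q ^ (A + 2)) ^ 2 := h2.symm
        _ ≤ (208 * q ^ (e + 3) * (U.card : ℝ)) * (q ^ (A + 2)) ^ 2 :=
            mul_le_mul_of_nonneg_right hU1 (by positivity)
        _ = _ := by ring
    refine h1.trans (mul_le_mul_of_nonneg_right ?_ (Nat.cast_nonneg _))
    have h3 : q ^ c = q ^ 2 * q ^ (e + 3) * (q ^ (A + 2)) ^ 2 := by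
      rw [hc']
      ring
    rw [h3]
    have h4 : (208 : ℝ) ≤ q ^ 2 := by nlinarith
    apply mul_le_mul_of_nonneg_right _ (by positivity)
    exact mul_le_mul_of_nonneg_right h4 (by positivity)
  · intro y hy
    refine (hU2 y hy).trans ?_
    have h1 : q ^ (K * c + 1) = q ^ (c * K) * q := by
      rw [pow_succ, mul_comm K c]
    rw [h1, mul_inv, div_eq_mul_inv]
    have h2 : 0 < (q ^ (c * K))⁻¹ := by positivity
    have h3 : 2 * q⁻¹ ≤ 1 := by
      rw [← div_eq_mul_inv, div_le_one hq0]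
      linarith
    calc 2 * ((q ^ (c * K))⁻¹ * q⁻¹) * D = (2 * q⁻¹) * ((q ^ (c * K))⁻¹ * D) := by ring
      _ ≤ 1 * ((q ^ (c * K))⁻¹ * D) := mul_le_mul_of_nonneg_right h3 (by positivity)
      _ = D * (q ^ (c * K))⁻¹ := by ring

end Pool.Agent.U797.NL
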