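import Pool.Agent.U797.NL.Main
import Pool.Agent.U797.NL.Step2
import Pool.Agent.U797.NL.Cells2
import Pool.Agent.U571.NL.BRW
import Pool.Agent.U978.NL.LOC
import Pool.Agent.U454.NL.LEVEL
import Pool.Agent.U491.NL.ITER2

set_option autoImplicit false

/-!
# The chromatic number
-/

namespace Pool.Agent.U797.NL

open Finset
open scoped Classical
open Pool.Agent.U797.LV (nb mem_nb)

theorem main_chi : S_CHI :=
  Pool.Agent.U491.NL.t_ITER2 (t_STEP Pool.Agent.U423.NL.t_R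
    (Pool.Agent.U750.NL.t_EMB Pool.Agent.U423.NL.t_R)
    (Pool.Agent.U689.NL.t_POT Pool.Agent.U423.NL.t_R)
    (Pool.Agent.U454.NL.t_LEVEL Pool.Agent.U571.NL.t_BRW (Pool.Agent.U978.NL.t_LOC t_CELLS)))

/-- **The chromatic number of graphs without an induced forest.** -/
theorem chi_forest (m : ℕ) (F : SimpleGraph (Fin m)) (hF : F.IsAcyclic) (k : ℕ) (ε : ℝ)
    (hε : 0 < ε) :
    ∃ C : ℝ, ∀ (V : Type) [Fintype V] (G : SimpleGraph V) (D : ℝ), 1 ≤ D →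
      (∀ v, ((nb G v).card : ℝ) ≤ D) → G.CliqueFree k → ¬ F.IsIndContained G →
      G.Colorable ⌊C * D ^ ε⌋₊ := by
  obtain ⟨T, hT, ⟨ι0⟩⟩ := Pool.Agent.H367R3.forest_in_tree F hF
  obtain ⟨C, hC, H⟩ := main_chi m (k + 2) T (by omega) hT ε hε
  refine ⟨C, ?_⟩
  intro V _ G D hD hdeg hfree hFG
  apply H V G D hD hdeg (hfree.mono (by omega))
  rintro ⟨φ⟩
  exact hFG ⟨ι0.trans φ⟩

end Pool.Agent.U797.NL
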