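import Pool.Agent.U797.NL.Occ
import Pool.Agent.R143.JM.Col

set_option autoImplicit false

/-!
# Colouring graphs whose neighbourhoods have no induced tree
-/

namespace Pool.Agent.U797.NLO

open Finset Classical Filter Pool.Agent.TH855
open Pool.Agent.R143.JM (jensen one_le_zf)
open Pool.Agent.U797.LV (nb mem_nb)
open Pool.Agent.U312.NL (sub sub_adj sub_nb sub_tree sub_free)

/-- the number of colours for a set with `M` vertices -/
noncomputable def cl (C c : ℝ) (M : ℕ) : ℕ := ⌊Real.exp (C * (1 + Real.log M) ^ (1 - c))⌋₊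

theorem occ_tree (C c : ℝ) (hC : 1 ≤ C) (hc : 0 < c) (hc2 : c ≤ 1 / 2) :
    ∃ T₀ : ℝ, 4 ≤ T₀ ∧ ∀ T : ℝ, T₀ ≤ T → ∀ (V : Type) [Fintype V] (G : SimpleGraph V) (N : Finset V),
      (∀ S ⊆ N, ∀ M : ℕ, 1 ≤ M → S.card ≤ M → Good G (cl C c M) S) →
      ∀ l : V → ℝ, (∀ u, 0 ≤ l u) → (∀ u, l u ≤ 1) →
      Zf G N l ≤ Real.exp T + 28 * C * Real.log T ^ (1 - c) / T * Mf G N l := by
  have E1 : ∀ᶠ x : ℝ in atTop, 70 * C ≤ x ^ c := (tendsto_rpow_atTop hc).eventually_ge_atTop _
  have E2 := Real.tendsto_log_atTop.eventually (E1.and (eventually_ge_atTop (1 : ℝ)))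
  obtain ⟨T₁, hT₁⟩ := eventually_atTop.1 E2
  refine ⟨max T₁ 4, le_max_right _ _, ?_⟩
  intro T hT V _ G N hgood l hl hl1
  have hT4 : 4 ≤ T := (le_max_right _ _).trans hT
  have hT0 : 0 < T := by linarith
  have hZ := zf_pos (G := G) N l hl
  have hM := mf_nonneg (G := G) N l hl
  have hlogT : 1 ≤ Real.log T := (hT₁ T ((le_max_left _ _).trans hT)).2
  have hlT : 0 < Real.log T ^ (1 - c) := Real.rpow_pos_of_pos (by linarith) _
  by_cases hle : Zf G N l ≤ Real.exp T
  · have : 0 ≤ 28 * C * Real.log T ^ (1 - c) / T * Mf G N l := by positivity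
    linarith
  · push Not at hle
    have hlogZ : T ≤ Real.log (Zf G N l) := by
      rw [Real.le_log_iff_exp_le hZ]
      exact hle.le
    obtain ⟨Λ, hΛ⟩ : ∃ Λ : ℝ, Λ = ∑ u ∈ N, l u := ⟨_, rfl⟩
    have hTΛ : T ≤ Λ := by
      refine hlogZ.trans ?_
      rw [hΛ]
      have := Real.log_le_log hZ (zf_le_exp (G := G) N l hl)
      rwa [Real.log_exp] at this
    have hΛ0 : 0 < Λ := by linarith
    obtain ⟨hΛc, hlogΛ⟩ := hT₁ Λ (((le_max_left _ _).trans hT).trans hTΛ)
    obtain ⟨X, hX⟩ : ∃ X : ℝ, X = Real.log Λ ^ (1 - c) := ⟨_, rfl⟩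
    have hX1 : 1 ≤ X := by
      rw [hX]
      exact Real.one_le_rpow hlogΛ (by linarith)
    -- the number `M`
    obtain ⟨M, hMd⟩ : ∃ M : ℕ, M = ⌈3 * Λ⌉₊ := ⟨_, rfl⟩
    have hM3 : 3 * Λ ≤ M := by
      rw [hMd]
      exact Nat.le_ceil _
    have hM4 : (M : ℝ) ≤ 4 * Λ := by
      rw [hMd]
      have := Nat.ceil_lt_add_one (show 0 ≤ 3 * Λ by positivity)
      linarith
    have hM1r : (1 : ℝ) ≤ M := by linarith
    have hM1 : 1 ≤ M := by exact_mod_cast hM1r
    have hlogM0 : 0 ≤ Real.log M := Real.log_nonneg hM1r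
    -- the number of colours
    obtain ⟨s, hs⟩ : ∃ s : ℕ, s = cl C c M := ⟨_, rfl⟩
    have hs1 : 1 ≤ s := by
      rw [hs, cl]
      apply Nat.one_le_iff_ne_zero.2
      apply Nat.pos_iff_ne_zero.1
      apply Nat.floor_pos.2
      apply Real.one_le_exp
      positivity
    have hg : C * (1 + Real.log M) ^ (1 - c) ≤ 4 * C * X := by
      have h1 : 1 + Real.log M ≤ 4 * Real.log Λ := by
        have h2 := Real.log_le_log (by linarith) hM4
        rw [Real.log_mul (by norm_num) hΛ0.ne'] at h2
        have h3 : Real.log 4 ≤ 2 := by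
          have h4 : Real.log 4 = 2 * Real.log 2 := by
            rw [show (4 : ℝ) = 2 ^ 2 by norm_num, Real.log_pow]
            norm_num
          have := Real.log_two_lt_d9
          linarith
        linarith
      have h2 : (1 + Real.log M) ^ (1 - c) ≤ 4 * X := by
        calc (1 + Real.log M) ^ (1 - c) ≤ (4 * Real.log Λ) ^ (1 - c) :=
              Real.rpow_le_rpow (by linarith) h1 (by linarith)
          _ = 4 ^ (1 - c) * X := by rw [Real.mul_rpow (by norm_num) (by linarith), hX]
          _ ≤ 4 ^ (1 : ℝ) * X := by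
              apply mul_le_mul_of_nonneg_right _ (by linarith)
              exact Real.rpow_le_rpow_of_exponent_le (by norm_num) (by linarith)
          _ = 4 * X := by rw [Real.rpow_one]
      calc C * (1 + Real.log M) ^ (1 - c) ≤ C * (4 * X) :=
            mul_le_mul_of_nonneg_left h2 (by linarith)
        _ = 4 * C * X := by ring
    have hse : (s : ℝ) ≤ Real.exp (4 * C * X) := by
      rw [hs, cl]
      exact (Nat.floor_le (Real.exp_nonneg _)).trans (Real.exp_le_exp.2 hg)
    have hsr : (1 : ℝ) ≤ s := by exact_mod_cast hs1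
    have hbig := zf_big (G := G) N l hl hl1 s M hs1
      (fun S hS hcard => by rw [hs]; exact hgood S hS M hM1 hcard) Λ hΛ (by linarith) hM3
    obtain ⟨m, hm⟩ : ∃ m : ℝ, m = Mf G N l / Zf G N l := ⟨_, rfl⟩
    have hm0 : 0 ≤ m := by rw [hm]; positivity
    have hmZ : m * Zf G N l = Mf G N l := by rw [hm]; field_simp
    -- Jensen
    obtain ⟨y, hy⟩ : ∃ y : ℝ, y = 3 + 4 * C * X := ⟨_, rfl⟩
    have hCX : 1 ≤ C * X := by nlinarith
    have hy7 : y ≤ 7 * C * X := by linarith
    have hj := jensen (G := G) N l hl (-y)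
    rw [← hm] at hj
    have h8 : (8 : ℝ) ≤ Real.exp 3 := by
      have h1 := Real.quadratic_le_exp_of_nonneg (show (0 : ℝ) ≤ 3 by norm_num)
      linarith
    have hτ : 8 * Real.exp (4 * C * X) ≤ Real.exp y := by
      rw [hy, Real.exp_add]
      exact mul_le_mul_of_nonneg_right h8 (Real.exp_nonneg _)
    have hlogZ2 : Real.log (Zf G N l) ≤ m * y + Λ / Real.exp y := by
      have h1 : Zf G N (fun u => Real.exp (-y) * l u) ≤ Real.exp (Λ / Real.exp y) := by
        refine (zf_le_exp (G := G) N _ (fun u => mul_nonneg (Real.exp_pos _).le (hl u))).trans ?_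
        apply Real.exp_le_exp.2
        rw [← Finset.mul_sum, ← hΛ, Real.exp_neg, ← div_eq_inv_mul]
      have h3 := Real.log_le_log (by positivity) (hj.trans h1)
      rw [Real.log_mul hZ.ne' (Real.exp_pos _).ne', Real.log_exp, Real.log_exp] at h3
      linarith
    have hhalf : Λ / Real.exp y ≤ Real.log (Zf G N l) / 2 := by
      have h1 : Λ / Real.exp y ≤ Λ / (8 * s) := by
        apply div_le_div_of_nonneg_left hΛ0.le (by positivity)
        refine le_trans ?_ hτ
        linarith
      have h2 : Λ / (8 * s) = Λ / (4 * s) / 2 := by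
        rw [div_div]
        congr 1
        ring
      linarith
    have hmy : Real.log (Zf G N l) ≤ 2 * (m * y) := by linarith
    -- the mean is large
    have key : T ≤ 28 * C * Real.log T ^ (1 - c) * m := by
      by_cases hcase : Λ ≤ T ^ 2
      · have h1 : Real.log Λ ≤ 2 * Real.log T := by
          have := Real.log_le_log hΛ0 hcase
          rwa [Real.log_pow] at this
        have h2 : X ≤ 2 * Real.log T ^ (1 - c) := by
          rw [hX]
          calc Real.log Λ ^ (1 - c) ≤ (2 * Real.log T) ^ (1 - c) :=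
                Real.rpow_le_rpow (by linarith) h1 (by linarith)
            _ = 2 ^ (1 - c) * Real.log T ^ (1 - c) := Real.mul_rpow (by norm_num) (by linarith)
            _ ≤ 2 ^ (1 : ℝ) * Real.log T ^ (1 - c) := by
                apply mul_le_mul_of_nonneg_right _ hlT.le
                exact Real.rpow_le_rpow_of_exponent_le (by norm_num) (by linarith)
            _ = 2 * Real.log T ^ (1 - c) := by rw [Real.rpow_one]
        have h3 : y ≤ 14 * C * Real.log T ^ (1 - c) := by
          calc y ≤ 7 * C * X := hy7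
            _ ≤ 7 * C * (2 * Real.log T ^ (1 - c)) := mul_le_mul_of_nonneg_left h2 (by positivity)
            _ = 14 * C * Real.log T ^ (1 - c) := by ring
        have h4 : m * y ≤ m * (14 * C * Real.log T ^ (1 - c)) := mul_le_mul_of_nonneg_left h3 hm0
        linarith
      · push Not at hcase
        have hy0 : 0 < y := by rw [hy]; nlinarith
        -- `m y ≥ Λ / (8 s)`
        have h1 : Λ ≤ 8 * s * (m * y) := by
          have h2 : Λ / (4 * s) ≤ 2 * (m * y) := hbig.trans hmy
          rw [div_le_iff₀ (by positivity)] at h2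
          linarith
        have h2 : y ≤ Real.exp y := by
          have := Real.add_one_le_exp y
          linarith
        have h3 : 8 * (s : ℝ) ≤ Real.exp y := by
          refine le_trans ?_ hτ
          linarith
        have h4 : Λ ≤ Real.exp y * Real.exp y * m := by
          calc Λ ≤ 8 * s * (m * y) := h1
            _ ≤ Real.exp y * (m * Real.exp y) :=
                mul_le_mul h3 (mul_le_mul_of_nonneg_left h2 hm0) (by positivity) (Real.exp_nonneg _)
            _ = Real.exp y * Real.exp y * m := by ring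
        -- `exp (2 y) ≤ Λ ^ (1/2)`
        have h5 : y + y ≤ 1 / 2 * Real.log Λ := by
          have h6 : Real.log Λ = X * Real.log Λ ^ c := by
            rw [hX, ← Real.rpow_add (by linarith)]
            norm_num
          have h7 : X * (70 * C) ≤ X * Real.log Λ ^ c := mul_le_mul_of_nonneg_left hΛc (by linarith)
          rw [← h6] at h7
          nlinarith
        have h6 : Real.exp y * Real.exp y ≤ Real.exp (1 / 2 * Real.log Λ) := by
          rw [← Real.exp_add]
          exact Real.exp_le_exp.2 h5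
        obtain ⟨R, hR⟩ : ∃ R : ℝ, R = Real.exp (1 / 2 * Real.log Λ) := ⟨_, rfl⟩
        have hRR : R * R = Λ := by
          rw [hR, ← Real.exp_add]
          have : 1 / 2 * Real.log Λ + 1 / 2 * Real.log Λ = Real.log Λ := by ring
          rw [this, Real.exp_log hΛ0]
        have hR0 : 0 < R := by rw [hR]; exact Real.exp_pos _
        rw [← hR] at h6
        have h7 : R * R ≤ R * m := by
          rw [hRR]
          exact h4.trans (mul_le_mul_of_nonneg_right h6 hm0)
        have h8' : R ≤ m := le_of_mul_le_mul_left h7 hR0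
        have h9 : T ≤ R := by
          by_contra hcon
          push Not at hcon
          nlinarith
        have h10 : 1 ≤ 28 * C * Real.log T ^ (1 - c) := by
          have := Real.one_le_rpow hlogT (show 0 ≤ 1 - c by linarith)
          nlinarith
        calc T ≤ m := h9.trans h8'
          _ = 1 * m := (one_mul m).symm
          _ ≤ _ := mul_le_mul_of_nonneg_right h10 hm0
    have h10 : Zf G N l ≤ 28 * C * Real.log T ^ (1 - c) / T * Mf G N l := by
      rw [← hmZ, div_mul_eq_mul_div, le_div_iff₀ hT0]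
      have := mul_le_mul_of_nonneg_left key hZ.le
      linarith
    have := Real.exp_pos T
    linarith

end Pool.Agent.U797.NLO
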