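import Pool.Agent.U797.NL.Cone

set_option autoImplicit false

/-!
# The chromatic number of graphs whose neighbourhoods have no induced tree
-/

namespace Pool.Agent.U797.NLO

open Finset Classical Filter Pool.Agent.TH855
open Pool.Agent.U797.LV (nb mem_nb)
open Pool.Agent.U312.NL (sub sub_adj sub_nb sub_tree sub_free)

theorem col_tree (n : ℕ) (T : SimpleGraph (Fin (n + 1))) (hT : T.IsTree) (k : ℕ) (hk : 2 ≤ k) :
    ∃ C c : ℝ, ∃ Δ₀ : ℕ, 0 < c ∧ c < 1 ∧ ∀ (V : Type) [Fintype V] (G : SimpleGraph V), G.CliqueFree k →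
      (∀ v, ¬ T.IsIndContained (G.induce (G.neighborSet v))) → ∀ Δ : ℕ, Δ₀ ≤ Δ →
      (∀ v, (univ.filter (fun w => G.Adj v w)).card ≤ Δ) →
      G.Colorable ⌊C * (Δ * Real.log (Real.log Δ) ^ (1 - c) / Real.log Δ)⌋₊ := by
  obtain ⟨C, c, hC1, hc, hc2, H⟩ := Pool.Agent.U797.NL.chiQ n T hT k hk
  obtain ⟨T₀, hT₀4, hocc⟩ := occ_tree C c hC1 hc hc2
  refine ⟨56 * C + 2, c, ⌈Real.exp (max 64 (2 * T₀))⌉₊, hc, by linarith, ?_⟩
  intro V _ G hfree hind Δ hΔ hdeg
  have hΔr : Real.exp (max 64 (2 * T₀)) ≤ Δ := (Nat.le_ceil _).trans (by exact_mod_cast hΔ)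
  have hΔ0 : (0 : ℝ) < Δ := lt_of_lt_of_le (Real.exp_pos _) hΔr
  obtain ⟨L, hL⟩ : ∃ L : ℝ, L = Real.log (Δ : ℝ) := ⟨_, rfl⟩
  have hLmax : max 64 (2 * T₀) ≤ L := by
    rw [hL, Real.le_log_iff_exp_le hΔ0]
    exact hΔr
  have hL64 : 64 ≤ L := (le_max_left _ _).trans hLmax
  have hLT : 2 * T₀ ≤ L := (le_max_right _ _).trans hLmax
  have hL0 : 0 < L := by linarith
  have hΔexp : (Δ : ℝ) = Real.exp L := by rw [hL, Real.exp_log hΔ0]
  rw [← hL]
  have hlogL : 1 ≤ Real.log L := by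
    rw [Real.le_log_iff_exp_le hL0]
    have := Real.exp_one_lt_d9
    linarith
  obtain ⟨X, hX⟩ : ∃ X : ℝ, X = (Δ : ℝ) * Real.log L ^ (1 - c) / L := ⟨_, rfl⟩
  rw [← hX]
  have hlL1 : 1 ≤ Real.log L ^ (1 - c) := Real.one_le_rpow hlogL (by linarith)
  have hX0 : 0 ≤ X := by
    rw [hX]
    positivity
  have hlog2 : Real.log (L / 2) ≤ Real.log L := Real.log_le_log (by linarith) (by linarith)
  have hlog2' : 0 ≤ Real.log (L / 2) := Real.log_nonneg (by linarith)
  refine colorable_of_occ (s0 := 2) le_rfl Δ (β := Real.exp (L / 2))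
    (γ := 28 * C * Real.log (L / 2) ^ (1 - c) / (L / 2)) (ℓ := Real.exp (L / 4)) (Real.exp_pos _)
    (by positivity) (Real.exp_pos _) hdeg ?_ ?_
  · intro v N hN l hl hl1
    refine hocc (L / 2) (by linarith) V G N ?_ l hl (fun u => (hl1 u).trans (by norm_num))
    intro S hS M hM hcard
    have hM1 : (1 : ℝ) ≤ M := by exact_mod_cast hM
    have h0 : (sub G S).Colorable (cl C c M) := by
      refine H {x // x ∈ S} (sub G S) M hM1 (fun x => ?_) (sub_free hfree S) ?_
      · have h1 := sub_nb (G := G) x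
        have h2 : (nb G x.1 ∩ S).card ≤ S.card := card_le_card inter_subset_right
        exact_mod_cast (h1.trans h2).trans hcard
      · rintro ⟨φ⟩
        apply hind v
        refine ⟨φ.trans ⟨⟨fun x => ⟨x.1, hN x.1 (hS x.2)⟩, ?_⟩, ?_⟩⟩
        · intro x y hxy
          exact Subtype.ext (congrArg (fun z : G.neighborSet v => z.1) hxy)
        · intro x y
          exact Iff.rfl
    have hpos : 0 < cl C c M := by
      rw [cl]
      apply Nat.floor_pos.2
      apply Real.one_le_exp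
      have := Real.log_nonneg hM1
      positivity
    obtain ⟨g⟩ := h0
    refine ⟨fun u => if h : u ∈ S then g ⟨u, h⟩ else ⟨0, hpos⟩, ?_⟩
    intro u hu w hw huw
    dsimp only
    rw [dif_pos hu, dif_pos hw]
    exact g.valid (sub_adj.2 huw)
  · have hfl : (56 * C + 2) * X - 1 ≤ (⌊(56 * C + 2) * X⌋₊ : ℝ) := by
      have := Nat.lt_floor_add_one ((56 * C + 2) * X)
      linarith
    -- `γ Δ ≤ 56 C X`
    have h1 : 28 * C * Real.log (L / 2) ^ (1 - c) / (L / 2) * Δ ≤ 56 * C * X := by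
      have h2 : Real.log (L / 2) ^ (1 - c) ≤ Real.log L ^ (1 - c) :=
        Real.rpow_le_rpow hlog2' hlog2 (by linarith)
      have h3 : 28 * C * Real.log (L / 2) ^ (1 - c) / (L / 2) * Δ =
          56 * C * (Δ * Real.log (L / 2) ^ (1 - c) / L) := by
        field_simp
        ring
      rw [h3, hX]
      apply mul_le_mul_of_nonneg_left _ (by positivity)
      apply div_le_div_of_nonneg_right _ hL0.le
      exact mul_le_mul_of_nonneg_left h2 hΔ0.le
    obtain ⟨E, hE⟩ : ∃ E : ℝ, E = Real.exp (3 * (L / 4)) := ⟨_, rfl⟩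
    have hE1 : 1 ≤ E := by
      rw [hE]
      apply Real.one_le_exp
      linarith
    have h4 : Real.exp (L / 2) * Real.exp (L / 4) = E := by
      rw [hE, ← Real.exp_add]
      congr 1
      ring
    have hΔE : (Δ : ℝ) = E * Real.exp (L / 4) := by
      rw [hΔexp, hE, ← Real.exp_add]
      congr 1
      ring
    have h5 : (Δ : ℝ) * (2 : ℕ) / Real.exp (L / 4) = 2 * E := by
      rw [hΔE]
      have := (Real.exp_pos (L / 4)).ne'
      field_simp
      norm_num
    -- `X ≥ 2 E`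
    have h6 : 2 * E ≤ X := by
      have h7 : 2 * L ≤ Real.exp (L / 4) := by
        have h8 := Real.quadratic_le_exp_of_nonneg (show 0 ≤ L / 4 by linarith)
        nlinarith
      rw [hX, le_div_iff₀ hL0, hΔE]
      calc 2 * E * L = E * (2 * L) * 1 := by ring
        _ ≤ E * Real.exp (L / 4) * Real.log L ^ (1 - c) :=
            mul_le_mul (mul_le_mul_of_nonneg_left h7 (by linarith)) hlL1 (by norm_num)
              (by positivity)
    rw [h4, h5]
    linarith

end Pool.Agent.U797.NLO
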