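import Pool.Agent.U797.NL.Cone

set_option autoImplicit false

/-!
# Graphs without an induced join of a clique and a forest
-/

namespace Pool.Agent.U797.NLO

open Finset Filter Classical Pool.Agent.TH855 Pool.Agent.Helper311.Glue
open Pool.Agent.R143.JM (jensen one_le_zf zf_mono mean_lower)

/-- all small subsets of `N` have few colours -/
def AG {V : Type} (G : SimpleGraph V) (C c : ℝ) (N : Finset V) : Prop :=
  ∀ S ⊆ N, ∀ M : ℕ, 1 ≤ M → S.card ≤ M → ∃ f : V → Fin (cl C c M),
    ∀ u ∈ S, ∀ v ∈ S, G.Adj u v → f u ≠ f v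

/-- the same for the common neighbours of the cliques of size `s` -/
def Lv {V : Type} (G : SimpleGraph V) (C c : ℝ) : ℕ → Finset V → Prop
  | 0, N => AG G C c N
  | s + 1, N => ∀ u ∈ N, Lv G C c s (N.filter (fun w => G.Adj u w))

theorem zf_base (C c : ℝ) (hC : 1 ≤ C) (hc : 0 < c) (hc2 : c ≤ 1 / 2) :
    ∃ y₀ : ℝ, 2 ≤ y₀ ∧ ∀ y : ℝ, y₀ ≤ y → ∀ (V : Type) [Fintype V] (G : SimpleGraph V) (N : Finset V),
      AG G C c N → ∀ l : V → ℝ, (∀ u, 0 ≤ l u) → (∀ u, l u ≤ 1) → y ^ 2 ≤ ∑ u ∈ N, l u →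
      Real.exp (y / 8) ≤ Zf G N l := by
  have E1 : ∀ᶠ x : ℝ in atTop, 70 * C ≤ x ^ c := (tendsto_rpow_atTop hc).eventually_ge_atTop _
  have E2 := Real.tendsto_log_atTop.eventually (E1.and (eventually_ge_atTop (2 : ℝ)))
  obtain ⟨T₁, hT₁⟩ := eventually_atTop.1 E2
  refine ⟨max T₁ 4, (by norm_num : (2 : ℝ) ≤ 4).trans (le_max_right _ _), ?_⟩
  intro y hy V _ G N hgood l hl hl1 hyΛ
  have hy4 : 4 ≤ y := (le_max_right _ _).trans hy
  have hZ := zf_pos (G := G) N l hl
  obtain ⟨Λ, hΛ⟩ : ∃ Λ : ℝ, Λ = ∑ u ∈ N, l u := ⟨_, rfl⟩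
  rw [← hΛ] at hyΛ
  have hyyΛ : y ≤ Λ := by nlinarith
  have hΛ0 : 0 < Λ := by linarith
  obtain ⟨hΛc, hlogΛ⟩ := hT₁ Λ (((le_max_left _ _).trans hy).trans hyyΛ)
  obtain ⟨X, hX⟩ : ∃ X : ℝ, X = Real.log Λ ^ (1 - c) := ⟨_, rfl⟩
  have hX1 : 1 ≤ X := by
    rw [hX]
    exact Real.one_le_rpow (by linarith) (by linarith)
  obtain ⟨M, hMd⟩ : ∃ M : ℕ, M = ⌈3 * Λ⌉₊ := ⟨_, rfl⟩
  have hM3 : 3 * Λ ≤ M := by
    rw [hMd]
    exact Nat.le_ceil _
  have hM4 : (M : ℝ) ≤ 4 * Λ := by
    rw [hMd]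
    have := Nat.ceil_lt_add_one (show 0 ≤ 3 * Λ by positivity)
    linarith
  have hM1r : (1 : ℝ) ≤ M := by linarith
  have hM1 : 1 ≤ M := by exact_mod_cast hM1r
  have hlogM0 : 0 ≤ Real.log M := Real.log_nonneg hM1r
  obtain ⟨s, hs⟩ : ∃ s : ℕ, s = cl C c M := ⟨_, rfl⟩
  have hs1 : 1 ≤ s := by
    rw [hs, cl]
    apply Nat.one_le_iff_ne_zero.2
    apply Nat.pos_iff_ne_zero.1
    apply Nat.floor_pos.2
    apply Real.one_le_exp
    positivity
  have hg : C * (1 + Real.log M) ^ (1 - c) ≤ 4 * C * X := by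
    have h1 : 1 + Real.log M ≤ 4 * Real.log Λ := by
      have h2 := Real.log_le_log (by linarith) hM4
      rw [Real.log_mul (by norm_num) hΛ0.ne'] at h2
      have h3 : Real.log 4 ≤ 2 := by
        have h4 : Real.log 4 = 2 * Real.log 2 := by
          rw [show (4 : ℝ) = 2 ^ 2 by norm_num, Real.log_pow]
          norm_num
        have := Real.log_two_lt_d9
        linarith
      linarith
    have h2 : (1 + Real.log M) ^ (1 - c) ≤ 4 * X := by
      calc (1 + Real.log M) ^ (1 - c) ≤ (4 * Real.log Λ) ^ (1 - c) :=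
            Real.rpow_le_rpow (by linarith) h1 (by linarith)
        _ = 4 ^ (1 - c) * X := by rw [Real.mul_rpow (by norm_num) (by linarith), hX]
        _ ≤ 4 ^ (1 : ℝ) * X := by
            apply mul_le_mul_of_nonneg_right _ (by linarith)
            exact Real.rpow_le_rpow_of_exponent_le (by norm_num) (by linarith)
        _ = 4 * X := by rw [Real.rpow_one]
    calc C * (1 + Real.log M) ^ (1 - c) ≤ C * (4 * X) :=
          mul_le_mul_of_nonneg_left h2 (by linarith)
      _ = 4 * C * X := by ring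
  have hse : (s : ℝ) ≤ Real.exp (4 * C * X) := by
    rw [hs, cl]
    exact (Nat.floor_le (Real.exp_nonneg _)).trans (Real.exp_le_exp.2 hg)
  have hsr : (1 : ℝ) ≤ s := by exact_mod_cast hs1
  have hbig := zf_big (G := G) N l hl hl1 s M hs1
    (fun S hS hcard => by rw [hs]; exact hgood S hS M hM1 hcard) Λ hΛ (by linarith) hM3
  -- `4 C X ≤ (log Λ) / 2`
  have h5 : 4 * C * X ≤ 1 / 2 * Real.log Λ := by
    have h6 : Real.log Λ = X * Real.log Λ ^ c := by
      rw [hX, ← Real.rpow_add (by linarith)]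
      norm_num
    have h7 : X * (70 * C) ≤ X * Real.log Λ ^ c := mul_le_mul_of_nonneg_left hΛc (by linarith)
    rw [← h6] at h7
    nlinarith
  obtain ⟨R, hR⟩ : ∃ R : ℝ, R = Real.exp (1 / 2 * Real.log Λ) := ⟨_, rfl⟩
  have hRR : R * R = Λ := by
    rw [hR, ← Real.exp_add]
    have : 1 / 2 * Real.log Λ + 1 / 2 * Real.log Λ = Real.log Λ := by ring
    rw [this, Real.exp_log hΛ0]
  have hR0 : 0 < R := by rw [hR]; exact Real.exp_pos _
  have hsR : (s : ℝ) ≤ R := by
    rw [hR]
    exact hse.trans (Real.exp_le_exp.2 h5)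
  have hyR : y ≤ R := by
    by_contra hcon
    push Not at hcon
    nlinarith
  have h6 : R / 4 ≤ Λ / (4 * s) := by
    rw [div_le_div_iff₀ (by norm_num) (by positivity)]
    have : R * s ≤ R * R := mul_le_mul_of_nonneg_left hsR hR0.le
    nlinarith
  rw [← Real.le_log_iff_exp_le hZ]
  linarith

/-- large partition functions -/
theorem zf_lower2 {V : Type} [Fintype V] {G : SimpleGraph V} {C c : ℝ} (l : V → ℝ)
    (hl : ∀ u, 0 ≤ l u) (hl1 : ∀ u, l u ≤ 1) (y : ℝ) (hy : 1 ≤ y)
    (hbase : ∀ N : Finset V, AG G C c N → y ^ 2 ≤ ∑ u ∈ N, l u → Real.exp (y / 8) ≤ Zf G N l) :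
    ∀ (r : ℕ) (N : Finset V), Lv G C c r N → y ^ (r + 2) ≤ ∑ u ∈ N, l u →
      Real.exp (y / 8) ≤ Zf G N l := by
  intro r
  induction r with
  | zero =>
    intro N hN hy'
    exact hbase N hN (by simpa using hy')
  | succ r ih =>
    intro N hN hyr
    by_cases hu : ∃ u ∈ N, y ^ (r + 2) ≤ Dg G N l u
    · obtain ⟨u, huN, hu⟩ := hu
      rw [Dg] at hu
      exact le_trans (ih (N.filter (fun w => G.Adj u w)) (hN u huN) hu)
        (zf_mono (Finset.filter_subset _ _) l hl)
    · push Not at hu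
      obtain ⟨d, hd⟩ : ∃ d : ℝ, d = y ^ (r + 2) := ⟨_, rfl⟩
      rw [← hd] at hu
      have hd1 : 1 ≤ d := by rw [hd]; exact one_le_pow₀ hy
      have hd0 : 0 < d := by linarith
      obtain ⟨Λ, hΛ⟩ : ∃ Λ : ℝ, Λ = ∑ u ∈ N, l u := ⟨_, rfl⟩
      rw [← hΛ] at hyr
      have hyd : y * d ≤ Λ := by rw [hd]; rw [show r + 1 + 2 = r + 2 + 1 by ring, pow_succ] at hyr; linarith
      obtain ⟨s, hs⟩ : ∃ s : ℝ, s = 1 / (4 * d) := ⟨_, rfl⟩
      have hs0 : 0 < s := by rw [hs]; positivity
      have hsd : s * d = 1 / 4 := by rw [hs]; field_simp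
      have hs4 : s ≤ 1 / 4 := by
        rw [← hsd]
        have : s * 1 ≤ s * d := mul_le_mul_of_nonneg_left hd1 hs0.le
        linarith
      -- the scaled weights
      have hm0 : ∀ u, 0 ≤ s * l u := fun u => mul_nonneg hs0.le (hl u)
      have hZs := zf_pos (G := G) N (fun u => s * l u) hm0
      have hlow := mf_lower (G := G) N (fun u => s * l u) hm0
      have h2 : s * Λ / 2 ≤ ∑ u ∈ N, s * l u * (1 - s * l u - Dg G N (fun u => s * l u) u) := by
        have h3 : s * Λ / 2 = ∑ u ∈ N, s * l u * (1 / 2) := by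
          rw [hΛ, ← Finset.sum_mul, ← Finset.mul_sum]; ring
        rw [h3]
        refine Finset.sum_le_sum (fun u huN => mul_le_mul_of_nonneg_left ?_ (hm0 u))
        have h4 : Dg G N (fun u => s * l u) u = s * Dg G N l u := by
          rw [Dg, Dg, Finset.mul_sum]
        rw [h4]
        have h5 : s * Dg G N l u ≤ s * d := mul_le_mul_of_nonneg_left (hu u huN).le hs0.le
        have h6 : s * l u ≤ s * 1 := mul_le_mul_of_nonneg_left (hl1 u) hs0.le
        linarith
      have h7 : s * Λ / 2 ≤ Mf G N (fun u => s * l u) / Zf G N (fun u => s * l u) := by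
        rw [le_div_iff₀ hZs]
        have := mul_le_mul_of_nonneg_left h2 hZs.le
        linarith
      have h8 : y / 8 ≤ s * Λ / 2 := by
        have h9 : s * (y * d) ≤ s * Λ := mul_le_mul_of_nonneg_left hyd hs0.le
        have h10 : s * (y * d) = y * (s * d) := by ring
        rw [h10, hsd] at h9
        linarith
      have hj := jensen (G := G) N (fun u => s * l u) hm0 (Real.log (1 / s))
      have hinv : Real.exp (Real.log (1 / s)) = 1 / s := Real.exp_log (by positivity)
      have h11 : (fun u => Real.exp (Real.log (1 / s)) * (s * l u)) = l := by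
        funext u
        rw [hinv]; field_simp
      rw [h11] at hj
      have hlog : 1 ≤ Real.log (1 / s) := by
        rw [Real.le_log_iff_exp_le (by positivity), hs]
        have h12 : 1 / (1 / (4 * d)) = 4 * d := by field_simp
        rw [h12]
        have := Real.exp_one_lt_d9
        linarith
      have h13 : Real.exp (y / 8) ≤ Real.exp (Real.log (1 / s) *
          (Mf G N (fun u => s * l u) / Zf G N (fun u => s * l u))) := by
        apply Real.exp_le_exp.2
        have h14 : y / 8 ≤ Mf G N (fun u => s * l u) / Zf G N (fun u => s * l u) := h8.trans h7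
        have h15 : 0 ≤ Mf G N (fun u => s * l u) / Zf G N (fun u => s * l u) := by
          refine le_trans ?_ h14
          linarith
        calc y / 8 ≤ 1 * (Mf G N (fun u => s * l u) / Zf G N (fun u => s * l u)) := by linarith
          _ ≤ _ := mul_le_mul_of_nonneg_right hlog h15
      refine h13.trans (le_trans ?_ hj)
      have h16 := one_le_zf (G := G) N (fun u => s * l u) hm0
      have h17 := Real.exp_pos (Real.log (1 / s) *
          (Mf G N (fun u => s * l u) / Zf G N (fun u => s * l u)))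
      nlinarith

theorem occ_lv (C c : ℝ) (hC : 1 ≤ C) (hc : 0 < c) (hc2 : c ≤ 1 / 2) (a : ℝ) (ha1 : 1 < a) (s r : ℕ)
    (hrs : r = s + 2) :
    ∃ T₀ : ℝ, ∀ T : ℝ, T₀ ≤ T →
      ∀ (V : Type) [Fintype V] (G : SimpleGraph V) (N : Finset V),
      Lv G C c s N → ∀ l : V → ℝ, (∀ u, 0 ≤ l u) → (∀ u, l u ≤ 1) →
      Zf G N l ≤ Real.exp T + a * r * Real.log T / (T - 1) * Mf G N l := by
  obtain ⟨y₀, hy₀2, hbase⟩ := zf_base C c hC hc hc2
  have E1 : ∀ᶠ T : ℝ in atTop, (16 : ℝ) ≤ T ^ (a - 1) :=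
    (tendsto_rpow_atTop (by linarith)).eventually_ge_atTop _
  obtain ⟨T₁, hT₁⟩ := eventually_atTop.1 E1
  refine ⟨max (max T₁ 16) y₀, ?_⟩
  intro T hT V _ G N hN l hl hl1
  have hr : 1 ≤ r := by omega
  have hr0 : (0 : ℝ) < r := by exact_mod_cast hr
  obtain ⟨K, har⟩ : ∃ K : ℝ, a * r = K := ⟨_, rfl⟩
  rw [har]
  have hK0 : 0 < K := by rw [← har]; positivity
  have h16 : (16 : ℝ) ≤ T := ((le_max_right _ _).trans (le_max_left _ _)).trans hT
  have hTa := hT₁ T (((le_max_left _ _).trans (le_max_left _ _)).trans hT)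
  have hT0 : 0 < T := by linarith
  have hlogT : 1 ≤ Real.log T := by
    rw [Real.le_log_iff_exp_le hT0]
    have := Real.exp_one_lt_d9
    linarith
  have hZ := zf_pos (G := G) N l hl
  have hM := mf_nonneg (G := G) N l hl
  have hγ : 0 ≤ K * Real.log T / (T - 1) := by
    have : 0 < T - 1 := by linarith
    positivity
  by_cases hle : Zf G N l ≤ Real.exp T
  · have := mul_nonneg hγ hM
    linarith
  · push Not at hle
    have hlogZ : T ≤ Real.log (Zf G N l) := by
      rw [Real.le_log_iff_exp_le hZ]; exact hle.le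
    obtain ⟨Λ, hΛ⟩ : ∃ Λ : ℝ, Λ = ∑ u ∈ N, l u := ⟨_, rfl⟩
    have hTΛ : T ≤ Λ := by
      refine hlogZ.trans ?_
      rw [hΛ]
      have := Real.log_le_log hZ (zf_le_exp (G := G) N l hl)
      rwa [Real.log_exp] at this
    have hΛ0 : 0 < Λ := by linarith
    have hmean := mean_lower (G := G) N l hl Λ (by linarith) (le_of_eq hΛ.symm)
    obtain ⟨m, hm⟩ : ∃ m : ℝ, m = Mf G N l / Zf G N l := ⟨_, rfl⟩
    rw [← hm] at hmean
    have hm0 : 0 ≤ m := by rw [hm]; positivity
    have hmZ : m * Zf G N l = Mf G N l := by rw [hm]; field_simp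
    -- the mean is large
    have key : T - 1 ≤ K * Real.log T * m := by
      by_cases hc : Λ ≤ T ^ K
      · have h1 : Real.log Λ ≤ K * Real.log T := by
          have := Real.log_le_log hΛ0 hc
          rwa [Real.log_rpow hT0] at this
        have h2 := mul_le_mul_of_nonneg_right h1 hm0
        linarith
      · push Not at hc
        obtain ⟨y, hy⟩ : ∃ y : ℝ, y = Λ ^ ((1 : ℝ) / r) := ⟨_, rfl⟩
        have hy0 : 0 < y := by rw [hy]; positivity
        have hyr : y ^ r = Λ := by
          rw [hy, ← Real.rpow_natCast, ← Real.rpow_mul hΛ0.le]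
          have : (1 : ℝ) / r * r = 1 := by field_simp
          rw [this, Real.rpow_one]
        obtain ⟨Y, hY⟩ : ∃ Y : ℝ, Y = T ^ a := ⟨_, rfl⟩
        have hYT : Y = T ^ (a - 1) * T := by
          rw [hY]
          have : T ^ a = T ^ ((a - 1) + 1) := by congr 1; ring
          rw [this, Real.rpow_add hT0, Real.rpow_one]
        have hYT' : 16 * T ≤ Y := by
          rw [hYT]
          exact mul_le_mul_of_nonneg_right hTa hT0.le
        have hYy : Y ≤ y := by
          rw [hy, hY]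
          have h3 : T ^ a = (T ^ K) ^ ((1 : ℝ) / r) := by
            rw [← Real.rpow_mul hT0.le]
            congr 1
            rw [← har]; field_simp
          rw [h3]
          exact Real.rpow_le_rpow (by positivity) hc.le (by positivity)
        have hlogΛ : Real.log Λ = r * Real.log y := by
          rw [← hyr, Real.log_pow]
        have hTY : T ≤ Y := by linarith
        have h4 : Real.exp (y / 8) ≤ Zf G N l :=
          zf_lower2 l hl hl1 y (by linarith)
            (fun N' hN' h' => hbase y (((le_max_right _ _).trans hT).trans (hTY.trans hYy)) V G N' hN' l hl hl1 h')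
            s N hN (by rw [← hrs, hyr, hΛ])
        have h5 : y / 8 ≤ Real.log (Zf G N l) := by
          rw [Real.le_log_iff_exp_le hZ]; exact h4
        have h6 : y / 16 ≤ r * Real.log y * m := by
          rw [hlogΛ] at hmean
          linarith
        have hY0 : 0 < Y := by linarith
        have hlogY : Real.log Y = a * Real.log T := by rw [hY, Real.log_rpow hT0]
        have hlY0 : 0 < Real.log Y := by
          rw [hlogY]
          have : 0 < Real.log T := by linarith
          have : 0 < a := by linarith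
          positivity
        have hly0 : 0 < Real.log y := lt_of_lt_of_le hlY0 (Real.log_le_log hY0 hYy)
        have h7 := mono_div_log (by linarith : (3 : ℝ) ≤ Y) hYy
        rw [div_le_div_iff₀ hlY0 hly0] at h7
        -- Y log y ≤ y log Y
        have h8 : y * (Y / 16) ≤ y * (K * Real.log T * m) := by
          calc y * (Y / 16) = Y * (y / 16) := by ring
            _ ≤ Y * (r * Real.log y * m) := mul_le_mul_of_nonneg_left h6 hY0.le
            _ = (r * m) * (Y * Real.log y) := by ring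
            _ ≤ (r * m) * (y * Real.log Y) :=
                mul_le_mul_of_nonneg_left h7 (by positivity)
            _ = y * (K * Real.log T * m) := by rw [hlogY, ← har]; ring
        have h9 := le_of_mul_le_mul_left h8 hy0
        linarith
    have hT1 : 0 < T - 1 := by linarith
    have h10 : Zf G N l ≤ K * Real.log T / (T - 1) * Mf G N l := by
      rw [← hmZ, div_mul_eq_mul_div, le_div_iff₀ hT1]
      have := mul_le_mul_of_nonneg_left key hZ.le
      linarith
    have := Real.exp_pos T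
    linarith

/-- the chromatic number -/
theorem col_lv (C c : ℝ) (hC : 1 ≤ C) (hc : 0 < c) (hc2 : c ≤ 1 / 2) (s r : ℕ) (hrs : r = s + 2)
    (ε : ℝ) (hε : 0 < ε) : ∃ Δ₀ : ℕ, ∀ Δ : ℕ, Δ₀ ≤ Δ →
    ∀ (V : Type) [Fintype V] (G : SimpleGraph V),
      (∀ v, ∀ N : Finset V, (∀ w ∈ N, G.Adj v w) → N.card ≤ Δ) →
      (∀ v, ∀ N : Finset V, (∀ w ∈ N, G.Adj v w) → Lv G C c s N) →
      ∃ n : ℕ, G.Colorable n ∧
        (n : ℝ) ≤ (1 + ε) * r * ((Δ : ℝ) * Real.log (Real.log (Δ : ℝ)) / Real.log (Δ : ℝ)) := by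
  have hr : 1 ≤ r := by omega
  obtain ⟨e, he⟩ : ∃ e : ℝ, e = ε / (16 * (1 + ε)) := ⟨_, rfl⟩
  have he0 : 0 < e := by rw [he]; positivity
  have heq : 16 * (e * (1 + ε)) = ε := by rw [he]; field_simp
  have he1 : e ≤ 1 / 16 := by
    rw [he, div_le_div_iff₀ (by positivity) (by norm_num)]
    linarith
  obtain ⟨T₀, hocc⟩ := occ_lv C c hC hc hc2 (1 + ε / 4) (by linarith) s r hrs
  have hlogtend : Tendsto (fun n : ℕ => Real.log (n : ℝ)) atTop atTop :=
    Real.tendsto_log_atTop.comp tendsto_natCast_atTop_atTop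
  have E1 := hlogtend.eventually (asy_exp (α := e) he0 (show 0 < ε / 16 by positivity) 1)
  have E2 := hlogtend.eventually_ge_atTop (max (1 / e) (max 16 (2 * T₀)))
  obtain ⟨Δ₀, hΔ₀⟩ := eventually_atTop.1 (E1.and E2)
  refine ⟨max Δ₀ 1, ?_⟩
  intro Δ hΔ V _ G hdeg hfree
  have hr0 : (1 : ℝ) ≤ r := by exact_mod_cast hr
  obtain ⟨e1, e2⟩ := hΔ₀ Δ ((le_max_left _ _).trans hΔ)
  obtain ⟨L, hL⟩ : ∃ L : ℝ, L = Real.log (Δ : ℝ) := ⟨_, rfl⟩
  rw [← hL] at e1 e2 ⊢
  have hΔ1 : (1 : ℝ) ≤ Δ := by exact_mod_cast (le_max_right _ _).trans hΔ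
  have hΔexp : (Δ : ℝ) = Real.exp L := by rw [hL, Real.exp_log (by linarith)]
  have hLe : 1 / e ≤ L := (le_max_left _ _).trans e2
  have hL16 : 16 ≤ L := (le_max_left _ _).trans ((le_max_right _ _).trans e2)
  have hLT : 2 * T₀ ≤ L := (le_max_right _ _).trans ((le_max_right _ _).trans e2)
  have hL0 : 0 < L := by linarith
  have heL : 1 ≤ e * L := by
    rw [div_le_iff₀ he0] at hLe; linarith
  have hlogL : 1 ≤ Real.log L := by
    rw [Real.le_log_iff_exp_le hL0]
    have := Real.exp_one_lt_d9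
    linarith
  obtain ⟨T, hT⟩ : ∃ T : ℝ, T = (1 - 3 * e) * L := ⟨_, rfl⟩
  have hTL : L / 2 ≤ T := by
    rw [hT]
    have : 3 * e * L ≤ 3 * (1 / 16) * L := by
      apply mul_le_mul_of_nonneg_right _ hL0.le
      linarith
    linarith
  have hTL2 : T ≤ L := by
    rw [hT]
    have : 0 < 3 * e * L := by positivity
    linarith
  have hT0 : 0 < T := by linarith
  have hT1 : 0 < T - 1 := by linarith
  have hlogT : Real.log T ≤ Real.log L := Real.log_le_log hT0 hTL2
  have hlogT0 : 0 ≤ Real.log T := Real.log_nonneg (by linarith)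
  obtain ⟨X, hX⟩ : ∃ X : ℝ, X = (Δ : ℝ) * Real.log L / L := ⟨_, rfl⟩
  have hX0 : 0 ≤ X := by rw [hX]; positivity
  rw [← hX]
  refine ⟨⌊(1 + ε) * r * X⌋₊, ?_, Nat.floor_le (by positivity)⟩
  refine colorable_of_occ (s0 := 2) le_rfl Δ (β := Real.exp T)
    (γ := (1 + ε / 4) * r * Real.log T / (T - 1)) (ℓ := Real.exp (e * L)) (Real.exp_pos _)
    (by positivity) (Real.exp_pos _)
    (fun v => hdeg v _ (fun w hw => (Finset.mem_filter.1 hw).2)) ?_ ?_
  · intro v N hN l hl hl1
    exact hocc T (by linarith) V G N (hfree v N hN) l hl (fun u => (hl1 u).trans (by norm_num))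
  · have hfl : (1 + ε) * r * X - 1 ≤ (⌊(1 + ε) * r * X⌋₊ : ℝ) := by
      have := Nat.lt_floor_add_one ((1 + ε) * r * X)
      linarith
    obtain ⟨g, hg⟩ : ∃ g : ℝ, g = Real.exp (-(e * L)) := ⟨_, rfl⟩
    rw [← hg] at e1
    have hg0 : 0 < g := by rw [hg]; exact Real.exp_pos _
    have hgL : g * L ≤ ε / 16 := by
      have : g * L ≤ g * (L + 1) ^ 1 := mul_le_mul_of_nonneg_left (by linarith) hg0.le
      linarith
    -- `exp T * ℓ ≤ Δ g`
    have h1 : Real.exp T * Real.exp (e * L) ≤ Δ * g := by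
      rw [hΔexp, hg, ← Real.exp_add, ← Real.exp_add]
      apply Real.exp_le_exp.2
      rw [hT]
      have : 0 < e * L := by positivity
      linarith
    have h2 : (Δ : ℝ) * (2 : ℕ) / Real.exp (e * L) = 2 * (Δ * g) := by
      rw [hg, Real.exp_neg]; push_cast; field_simp
    have h3 : 1 ≤ Δ * g := by
      rw [hΔexp, hg, ← Real.exp_add]
      apply Real.one_le_exp
      have : e * L ≤ 1 * L := mul_le_mul_of_nonneg_right (by linarith) hL0.le
      linarith
    have h4 : 4 * (Δ * g) ≤ ε / 4 * r * X := by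
      have h5 : 4 * (Δ * g) ≤ ε / 4 * X := by
        rw [hX, mul_div_assoc', le_div_iff₀ hL0]
        have h5 : Δ * (g * L) ≤ Δ * (ε / 16) := mul_le_mul_of_nonneg_left hgL (by linarith)
        have h6 : (Δ : ℝ) * 1 ≤ Δ * Real.log L := mul_le_mul_of_nonneg_left hlogL (by linarith)
        have h7 : ε / 4 * (Δ * 1) ≤ ε / 4 * (Δ * Real.log L) :=
          mul_le_mul_of_nonneg_left h6 (by positivity)
        linarith
      refine h5.trans ?_
      have h6 : ε / 4 * 1 * X ≤ ε / 4 * r * X := by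
        apply mul_le_mul_of_nonneg_right _ hX0
        exact mul_le_mul_of_nonneg_left hr0 (by positivity)
      linarith
    have h8 : (1 + ε / 4) * r * Real.log T / (T - 1) * Δ ≤ (1 + 3 * ε / 4) * r * X := by
      rw [div_mul_eq_mul_div, div_le_iff₀ hT1, hX]
      have h9 : (1 - 4 * e) * L ≤ T - 1 := by rw [hT]; linarith
      have h10 : 1 + ε / 4 ≤ (1 + 3 * ε / 4) * (1 - 4 * e) := by
        have h11 : e * (1 + 3 * ε / 4) ≤ e * (1 + ε) :=
          mul_le_mul_of_nonneg_left (by linarith) he0.le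
        have h12 : (1 + 3 * ε / 4) * (1 - 4 * e) = 1 + 3 * ε / 4 - 4 * (e * (1 + 3 * ε / 4)) := by
          ring
        rw [h12]
        linarith
      have h13 : (1 + ε / 4) * L ≤ (1 + 3 * ε / 4) * (T - 1) := by
        calc (1 + ε / 4) * L ≤ (1 + 3 * ε / 4) * (1 - 4 * e) * L :=
              mul_le_mul_of_nonneg_right h10 hL0.le
          _ = (1 + 3 * ε / 4) * ((1 - 4 * e) * L) := by ring
          _ ≤ _ := mul_le_mul_of_nonneg_left h9 (by positivity)
      have h14 : (1 + ε / 4) * r * Real.log T * Δ ≤ (1 + ε / 4) * r * Real.log L * Δ := by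
        apply mul_le_mul_of_nonneg_right _ (by linarith)
        exact mul_le_mul_of_nonneg_left hlogT (by positivity)
      refine h14.trans ?_
      have h15 : (1 + 3 * ε / 4) * r * (Δ * Real.log L / L) * (T - 1) =
          ((1 + 3 * ε / 4) * (T - 1)) * (r * Δ * Real.log L) / L := by ring
      rw [h15, le_div_iff₀ hL0]
      have h16 := mul_le_mul_of_nonneg_right h13
        (show 0 ≤ (r : ℝ) * Δ * Real.log L by positivity)
      linarith
    rw [h2]
    linarith

end Pool.Agent.U797.NLO
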