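import Pool.Agent.U797.NL.Prog
import Pool.Agent.U423.NL.R
import Pool.Agent.U810.NL.COL
import Pool.Agent.U689.NL.POT
import Pool.Agent.U750.NL.EMB
import Pool.Agent.U416.NL.KILL
import Pool.Agent.U312.NL.ITER
import Pool.Agent.U333.NL.WEI
import Pool.Agent.U797.DG.Rand

set_option autoImplicit false

/-!
# Independent sets and fractional colourings
-/

namespace Pool.Agent.U797.NL

open Finset
open scoped Classical
open Pool.Agent.U797.LV (nb mem_nb)

theorem main_ind : S_IND :=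
  Pool.Agent.U312.NL.t_ITER (t_PROG Pool.Agent.U423.NL.t_R
    (Pool.Agent.U750.NL.t_EMB Pool.Agent.U423.NL.t_R)
    (Pool.Agent.U689.NL.t_POT Pool.Agent.U423.NL.t_R)
    (Pool.Agent.U416.NL.t_KILL Pool.Agent.U810.NL.t_COL))

/-- the same for all sets of vertices of one graph -/
theorem hereditary (m : ℕ) (F : SimpleGraph (Fin m)) (hF : F.IsAcyclic) (k : ℕ) (ε : ℝ)
    (hε : 0 < ε) :
    ∃ C : ℝ, 1 ≤ C ∧ ∀ (V : Type) [Fintype V] (G : SimpleGraph V) (D : ℝ), 1 ≤ D →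
      (∀ v, ((nb G v).card : ℝ) ≤ D) → G.CliqueFree k → ¬ F.IsIndContained G →
      ∀ S : Finset V, ∃ I ⊆ S, Ind G I ∧ (S.card : ℝ) ≤ C * D ^ ε * (I.card : ℝ) := by
  obtain ⟨T, hT, ⟨ι0⟩⟩ := Pool.Agent.H367R3.forest_in_tree F hF
  obtain ⟨C, hC, H⟩ := main_ind m (k + 2) T (by omega) hT ε hε
  refine ⟨C, hC, ?_⟩
  intro V _ G D hD hdeg hfree hFG S
  have hfree' : G.CliqueFree (k + 2) := hfree.mono (by omega)
  obtain ⟨I, hI1, hI2⟩ := H (↥S) (G.induce (S : Set V)) D hD (by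
    intro v
    refine le_trans ?_ (hdeg v.1)
    have h1 : (nb (G.induce (S : Set V)) v).map (Function.Embedding.subtype _) ⊆ nb G v.1 := by
      intro u hu
      rw [mem_map] at hu
      obtain ⟨u', hu', rfl⟩ := hu
      have h3 : (G.induce (S : Set V)).Adj v u' := mem_nb.1 hu'
      exact mem_nb.2 h3
    have h2 := card_le_card h1
    rw [card_map] at h2
    exact_mod_cast h2) (hfree'.comap ⟨(SimpleGraph.Embedding.induce (S : Set V)).toCopy⟩) (by
    rintro ⟨φ⟩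
    exact hFG ⟨ι0.trans (φ.trans (SimpleGraph.Embedding.induce _))⟩)
  refine ⟨I.map (Function.Embedding.subtype _), ?_, ?_, ?_⟩
  · intro x hx
    rw [mem_map] at hx
    obtain ⟨x', _, rfl⟩ := hx
    exact x'.2
  · intro x hx y hy hxy
    rw [mem_map] at hx hy
    obtain ⟨x', hx', rfl⟩ := hx
    obtain ⟨y', hy', rfl⟩ := hy
    exact hI1 x' hx' y' hy' hxy
  · rw [card_map]
    rw [Fintype.card_coe] at hI2
    exact hI2

/-- **Fractional colourings.** -/
theorem main_frac (m : ℕ) (F : SimpleGraph (Fin m)) (hF : F.IsAcyclic) (k : ℕ) (ε : ℝ)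
    (hε : 0 < ε) :
    ∃ c : ℝ, 0 < c ∧ ∀ (V : Type) [Fintype V] (G : SimpleGraph V) (D : ℝ), 1 ≤ D →
      (∀ v, ((nb G v).card : ℝ) ≤ D) → G.CliqueFree k → ¬ F.IsIndContained G →
      ∃ p : Finset V → ℝ, (∀ I, 0 ≤ p I) ∧ ∑ I, p I = 1 ∧
        (∀ I, p I ≠ 0 → G.IsIndepSet (I : Set V)) ∧
        ∀ v, c / D ^ ε ≤ ∑ I ∈ univ.filter (fun I => v ∈ I), p I := by
  obtain ⟨C, hC, H⟩ := hereditary m F hF k (ε / 2) (by positivity)
  have hB : (0 : ℝ) < 2 + 4 / ε := by positivity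
  refine ⟨1 / (3 * C * (2 + 4 / ε)) / 2, by positivity, ?_⟩
  intro V _ G D hD hdeg hfree hFG
  have hD0 : 0 < D := by linarith
  have hDe : 1 ≤ D ^ (ε / 2) := Real.one_le_rpow hD (by positivity)
  have hlog : 2 + 2 * Real.log D ≤ (2 + 4 / ε) * D ^ (ε / 2) := by
    have h1 : Real.log D ≤ D ^ (ε / 2) / (ε / 2) := Real.log_le_rpow_div hD0.le (by positivity)
    have h2 : D ^ (ε / 2) / (ε / 2) = (2 / ε) * D ^ (ε / 2) := by
      field_simp
    rw [h2] at h1
    have h3 : (2 + 4 / ε) * D ^ (ε / 2) = 2 * D ^ (ε / 2) + 2 * ((2 / ε) * D ^ (ε / 2)) := by ring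
    rw [h3]
    linarith
  have hA : 1 ≤ C * D ^ (ε / 2) := by nlinarith
  have hw := Pool.Agent.U333.NL.t_WEI V G D (C * D ^ (ε / 2)) hD hA hdeg
    (H V G D hD hdeg hfree hFG)
  obtain ⟨p, h1, h2, h3, h4⟩ := Pool.Agent.U797.DG.minimax_indep (G := G) (q := fun _ => (1 : ℝ))
    (fun _ => one_pos) (c := 1 / (3 * C * (2 + 4 / ε)) / D ^ ε) (by positivity) (by
      intro w hw0
      obtain ⟨I, hI1, hI2⟩ := hw w hw0
      refine ⟨I, ?_, ?_⟩
      · intro x hx y hy _ hxy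
        exact hI1 x hx y hy hxy
      · simp only [div_one]
        have h5 : ∑ v, w v ≤ 3 * C * (2 + 4 / ε) * D ^ ε * ∑ v ∈ I, w v := by
          refine hI2.trans (mul_le_mul_of_nonneg_right ?_ (sum_nonneg fun v _ => hw0 v))
          have h6 : D ^ ε = D ^ (ε / 2) * D ^ (ε / 2) := by
            rw [← Real.rpow_add hD0]
            congr 1
            ring
          rw [h6]
          calc 3 * (C * D ^ (ε / 2)) * (2 + 2 * Real.log D) ≤
              3 * (C * D ^ (ε / 2)) * ((2 + 4 / ε) * D ^ (ε / 2)) :=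
                mul_le_mul_of_nonneg_left hlog (by positivity)
            _ = _ := by ring
        calc 1 / (3 * C * (2 + 4 / ε)) / D ^ ε * ∑ v, w v ≤
            1 / (3 * C * (2 + 4 / ε)) / D ^ ε * (3 * C * (2 + 4 / ε) * D ^ ε * ∑ v ∈ I, w v) :=
              mul_le_mul_of_nonneg_left h5 (by positivity)
          _ = ∑ v ∈ I, w v := by
            field_simp)
  refine ⟨p, h1, h2, h3, ?_⟩
  intro v
  have h5 := h4 v
  have h6 : 1 / (3 * C * (2 + 4 / ε)) / D ^ ε / 2 / 1 = 1 / (3 * C * (2 + 4 / ε)) / 2 / D ^ ε := by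
    field_simp
  rw [h6] at h5
  exact h5

end Pool.Agent.U797.NL
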