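import Pool.Agent.U797.NL.Quant
import Pool.Agent.R143.JM.Occ

set_option autoImplicit false

/-!
# Independent sets in graphs without an induced tree: the partition function
-/

namespace Pool.Agent.U797.NLO

open Finset Classical Pool.Agent.TH855
open Pool.Agent.R143.JM (jensen one_le_zf)

variable {V : Type} [Fintype V] {G : SimpleGraph V}

/-- `S` can be coloured with `s` colours -/
def Good (G : SimpleGraph V) (s : ℕ) (S : Finset V) : Prop :=
  ∃ f : V → Fin s, ∀ u ∈ S, ∀ v ∈ S, G.Adj u v → f u ≠ f v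

/-- the partition function and colourable sets -/
theorem good_sum (N : Finset V) (l : V → ℝ) (hl : ∀ u, 0 ≤ l u) (s : ℕ) (hs : 1 ≤ s) :
    ∑ S ∈ N.powerset.filter (fun S => Good G s S), ∏ u ∈ S, l u ≤ (Zf G N l) ^ s := by
  have h0 : ∀ S : Finset V, ∃ f : V → Fin s, Good G s S →
      ∀ u ∈ S, ∀ v ∈ S, G.Adj u v → f u ≠ f v := by
    intro S
    by_cases h : Good G s S
    · obtain ⟨f, hf⟩ := h
      exact ⟨f, fun _ => hf⟩
    · exact ⟨fun _ => ⟨0, hs⟩, fun h3 => absurd h3 h⟩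
  choose c hc using h0
  have h1 : (Zf G N l) ^ s =
      ∑ A ∈ Fintype.piFinset (fun _ : Fin s => Ind G N), ∏ i, ∏ u ∈ A i, l u := by
    rw [← Finset.prod_univ_sum (fun _ : Fin s => Ind G N) (fun _ A => ∏ u ∈ A, l u),
      Finset.prod_const, Finset.card_univ, Fintype.card_fin]
    rfl
  rw [h1]
  obtain ⟨φ, hφ⟩ : ∃ φ : Finset V → Fin s → Finset V,
      ∀ S i, φ S i = S.filter (fun u => c S u = i) := ⟨_, fun _ _ => rfl⟩
  have h2 : ∀ S : Finset V, ∏ u ∈ S, l u = ∏ i, ∏ u ∈ φ S i, l u := by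
    intro S
    simp only [hφ]
    rw [Finset.prod_fiberwise]
  have h3 : ∑ S ∈ N.powerset.filter (fun S => Good G s S), ∏ u ∈ S, l u =
      ∑ A ∈ (N.powerset.filter (fun S => Good G s S)).image φ, ∏ i, ∏ u ∈ A i, l u := by
    rw [Finset.sum_image]
    · exact Finset.sum_congr rfl (fun S _ => h2 S)
    · intro S _ S' _ heq
      have hsub : ∀ S S' : Finset V, φ S = φ S' → S ⊆ S' := by
        intro S S' heq u hu
        have h4 : u ∈ φ S (c S u) := by
          rw [hφ, mem_filter]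
          exact ⟨hu, rfl⟩
        rw [heq, hφ, mem_filter] at h4
        exact h4.1
      exact Finset.Subset.antisymm (hsub _ _ heq) (hsub _ _ heq.symm)
  rw [h3]
  refine Finset.sum_le_sum_of_subset_of_nonneg ?_
    (fun A _ _ => Finset.prod_nonneg (fun i _ => Finset.prod_nonneg (fun u _ => hl u)))
  intro A hA
  rw [mem_image] at hA
  obtain ⟨S, hS, rfl⟩ := hA
  rw [mem_filter, mem_powerset] at hS
  rw [Fintype.mem_piFinset]
  intro i
  rw [mem_ind, hφ]
  refine ⟨(filter_subset _ _).trans hS.1, ?_⟩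
  intro u hu w hw huw
  rw [mem_filter] at hu hw
  exact hc S hS.2 u hu.1 w hw.1 huw (hu.2.trans hw.2.symm)

theorem exp_half_le (x : ℝ) (hx : 0 ≤ x) (hx1 : x ≤ 1) : Real.exp (x / 2) ≤ 1 + x := by
  have h1 : 1 - x / 2 ≤ Real.exp (-(x / 2)) := by
    have := Real.add_one_le_exp (-(x / 2))
    linarith
  have h2 : 1 ≤ (1 + x) * Real.exp (-(x / 2)) := by
    have h3 : (1 + x) * (1 - x / 2) ≤ (1 + x) * Real.exp (-(x / 2)) :=
      mul_le_mul_of_nonneg_left h1 (by linarith)
    nlinarith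
  calc Real.exp (x / 2) = 1 * Real.exp (x / 2) := (one_mul _).symm
    _ ≤ ((1 + x) * Real.exp (-(x / 2))) * Real.exp (x / 2) :=
        mul_le_mul_of_nonneg_right h2 (Real.exp_nonneg _)
    _ = 1 + x := by
        rw [mul_assoc, ← Real.exp_add]
        norm_num

theorem zf_big (N : Finset V) (l : V → ℝ) (hl : ∀ u, 0 ≤ l u) (hl1 : ∀ u, l u ≤ 1) (s M : ℕ)
    (hs : 1 ≤ s) (hgood : ∀ S ⊆ N, S.card ≤ M → Good G s S) (Λ : ℝ) (hΛ : Λ = ∑ u ∈ N, l u)
    (hΛ4 : 4 ≤ Λ) (hM : 3 * Λ ≤ M) : Λ / (4 * s) ≤ Real.log (Zf G N l) := by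
  have hsr : (1 : ℝ) ≤ s := by exact_mod_cast hs
  have hZ := zf_pos (G := G) N l hl
  have hpr : ∀ S : Finset V, 0 ≤ ∏ u ∈ S, l u := fun S => Finset.prod_nonneg (fun u _ => hl u)
  -- the total
  have h1 : Real.exp (Λ / 2) ≤ ∑ S ∈ N.powerset, ∏ u ∈ S, l u := by
    rw [← Finset.prod_one_add, hΛ, Finset.sum_div, Real.exp_sum]
    exact Finset.prod_le_prod (fun _ _ => Real.exp_nonneg _) (fun u _ => exp_half_le _ (hl u) (hl1 u))
  -- the tail
  have h2 : ∑ S ∈ N.powerset.filter (fun S => ¬ S.card ≤ M), ∏ u ∈ S, l u ≤ 1 := by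
    have h3 : ∀ S : Finset V, ¬ S.card ≤ M → ∏ u ∈ S, l u ≤
        Real.exp (-M) * ∏ u ∈ S, (Real.exp 1 * l u) := by
      intro S hS
      rw [Finset.prod_mul_distrib, Finset.prod_const, ← Real.exp_nat_mul, mul_one, ← mul_assoc,
        ← Real.exp_add]
      have h4 : (1 : ℝ) ≤ Real.exp (-M + S.card) := by
        apply Real.one_le_exp
        have : (M : ℝ) ≤ S.card := by exact_mod_cast (not_le.1 hS).le
        linarith
      calc ∏ u ∈ S, l u = 1 * ∏ u ∈ S, l u := (one_mul _).symm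
        _ ≤ _ := mul_le_mul_of_nonneg_right h4 (hpr S)
    have hn : ∀ S : Finset V, 0 ≤ Real.exp (-M) * ∏ u ∈ S, (Real.exp 1 * l u) := fun S =>
      mul_nonneg (Real.exp_nonneg _) (Finset.prod_nonneg (fun u _ =>
        mul_nonneg (Real.exp_nonneg _) (hl u)))
    calc ∑ S ∈ N.powerset.filter (fun S => ¬ S.card ≤ M), ∏ u ∈ S, l u
        ≤ ∑ S ∈ N.powerset.filter (fun S => ¬ S.card ≤ M),
          Real.exp (-M) * ∏ u ∈ S, (Real.exp 1 * l u) :=
          Finset.sum_le_sum (fun S hS => h3 S (mem_filter.1 hS).2)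
      _ ≤ ∑ S ∈ N.powerset, Real.exp (-M) * ∏ u ∈ S, (Real.exp 1 * l u) :=
          Finset.sum_le_sum_of_subset_of_nonneg (filter_subset _ _) (fun S _ _ => hn S)
      _ = Real.exp (-M) * ∏ u ∈ N, (1 + Real.exp 1 * l u) := by
          rw [← Finset.mul_sum, Finset.prod_one_add]
      _ ≤ Real.exp (-M) * Real.exp (∑ u ∈ N, Real.exp 1 * l u) := by
          apply mul_le_mul_of_nonneg_left _ (Real.exp_nonneg _)
          rw [Real.exp_sum]
          refine Finset.prod_le_prod (fun u _ => ?_) (fun u _ => ?_)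
          · have := mul_nonneg (Real.exp_nonneg 1) (hl u)
            linarith
          · have := Real.add_one_le_exp (Real.exp 1 * l u)
            linarith
      _ = Real.exp (-M + Real.exp 1 * Λ) := by
          rw [← Finset.mul_sum, ← hΛ, ← Real.exp_add]
      _ ≤ 1 := by
          rw [Real.exp_le_one_iff]
          have h5 := Real.exp_one_lt_d9
          have h6 : Real.exp 1 * Λ ≤ 3 * Λ := mul_le_mul_of_nonneg_right (by linarith) (by linarith)
          linarith
  have h3 : Real.exp (Λ / 4) ≤ ∑ S ∈ N.powerset.filter (fun S => S.card ≤ M), ∏ u ∈ S, l u := by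
    have h4 := Finset.sum_filter_add_sum_filter_not N.powerset (fun S => S.card ≤ M)
      (fun S => ∏ u ∈ S, l u)
    have h5 : Real.exp (Λ / 4) + 1 ≤ Real.exp (Λ / 2) := by
      have h6 : Real.exp (Λ / 2) = Real.exp (Λ / 4) * Real.exp (Λ / 4) := by
        rw [← Real.exp_add]
        congr 1
        ring
      have h7 : 2 ≤ Real.exp (Λ / 4) := by
        have := Real.add_one_le_exp (Λ / 4)
        linarith
      rw [h6]
      nlinarith
    linarith
  have h4 : ∑ S ∈ N.powerset.filter (fun S => S.card ≤ M), ∏ u ∈ S, l u ≤ (Zf G N l) ^ s := by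
    refine le_trans ?_ (good_sum (G := G) N l hl s hs)
    refine Finset.sum_le_sum_of_subset_of_nonneg ?_ (fun S _ _ => hpr S)
    intro S hS
    rw [mem_filter, mem_powerset] at hS ⊢
    exact ⟨hS.1, hgood S hS.1 hS.2⟩
  have h5 := Real.log_le_log (Real.exp_pos _) (h3.trans h4)
  rw [Real.log_exp, Real.log_pow] at h5
  rw [div_le_iff₀ (by positivity)]
  linarith

end Pool.Agent.U797.NLO
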