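import Pool.Agent.U797.NL.Step3
import Pool.Agent.U797.NL.Chi

set_option autoImplicit false

/-!
# The chromatic number: `exp (C (1 + log Δ) ^ (1 - c))`
-/

namespace Pool.Agent.U797.NL

open Finset
open scoped Classical
open Pool.Agent.U797.LV (nb mem_nb)
open Pool.Agent.U491.NL (claim colorable_of_nat)
open Pool.Agent.U312.NL (sub sub_adj sub_nb sub_tree sub_free nbhd_free)

theorem su_le (K : ℕ) (hK : 1 ≤ K) (j : ℕ) : (su K j).1 ≤ (15 * K) ^ (j + 1) ∧
    (su K j).2 ≤ (15 * K) ^ (j + 1) := by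
  induction j with
  | zero =>
    constructor
    · change K + 1 ≤ (15 * K) ^ 1
      rw [pow_one]
      omega
    · exact Nat.zero_le _
  | succ j ih =>
    obtain ⟨h1, h2⟩ := ih
    have h3 : 1 ≤ (15 * K) ^ (j + 1) := Nat.one_le_pow _ _ (by omega)
    have h4 : K * (2 * (su K j).1 + (su K j).2 + 11) + 1 ≤ (15 * K) ^ (j + 2) := by
      have h5 : 2 * (su K j).1 + (su K j).2 + 11 ≤ 14 * (15 * K) ^ (j + 1) := by omega
      calc K * (2 * (su K j).1 + (su K j).2 + 11) + 1 ≤ K * (14 * (15 * K) ^ (j + 1)) + 1 :=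
            Nat.add_le_add_right (Nat.mul_le_mul_left _ h5) _
        _ ≤ K * (14 * (15 * K) ^ (j + 1)) + K * (15 * K) ^ (j + 1) := by
            apply Nat.add_le_add_left
            exact Nat.mul_pos hK (by omega)
        _ = (15 * K) ^ (j + 2) := by ring
    exact ⟨h4, h4⟩

theorem csu_le (K : ℕ) (hK : 1 ≤ K) (j : ℕ) : csu K j ≤ (15 * K) ^ (j + 2) := by
  obtain ⟨h1, h2⟩ := su_le K hK j
  have h3 : 1 ≤ (15 * K) ^ (j + 1) := Nat.one_le_pow _ _ (by omega)
  unfold csu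
  calc 2 * (su K j).1 + (su K j).2 + 11 ≤ 14 * (15 * K) ^ (j + 1) := by omega
    _ ≤ (15 * K) * (15 * K) ^ (j + 1) := Nat.mul_le_mul_right _ (by omega)
    _ = (15 * K) ^ (j + 2) := by ring

theorem EK_le (K n : ℕ) (hK : 1 ≤ K) : EK K n ≤ (n + 3) * (15 * K) ^ (n + 3) := by
  unfold EK
  have h1 : ∑ j ∈ range (n + 2), csu K j ≤ ∑ j ∈ range (n + 2), (15 * K) ^ (n + 3) := by
    refine sum_le_sum fun j hj => (csu_le K hK j).trans ?_
    rw [mem_range] at hj
    exact Nat.pow_le_pow_right (by omega) (by omega)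
  rw [sum_const, card_range, smul_eq_mul] at h1
  have h3 : 1 ≤ (15 * K) ^ (n + 3) := Nat.one_le_pow _ _ (by omega)
  calc 1 + ∑ j ∈ range (n + 2), csu K j ≤ (15 * K) ^ (n + 3) + (n + 2) * (15 * K) ^ (n + 3) :=
        add_le_add h3 h1
    _ = (n + 3) * (15 * K) ^ (n + 3) := by ring

theorem stepQ (n k : ℕ) (T : SimpleGraph (Fin (n + 1))) (hk : 1 ≤ k) (hT : T.IsTree) :
    ∃ A : ℕ, 1 ≤ A ∧ ∀ K : ℕ, 1 ≤ K → ∃ c : ℕ → ℕ, (∀ i, 1 ≤ c i ∧ c i ≤ (A * K) ^ A) ∧
    ∀ q : ℝ, ((A * K : ℕ) : ℝ) ^ A ≤ q →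
  ∀ (V : Type) [Fintype V] (G : SimpleGraph V) (D : ℝ) (Q : ℕ) (ψ : V → V → ℕ), 1 ≤ D →
    Real.log D ≤ q → (Q : ℝ) ≤ q →
    (∀ v, ((nb G v).card : ℝ) ≤ D) → G.CliqueFree k → ¬ T.IsIndContained G →
    (∀ a y, ψ a y < Q) →
    (∀ a y y', G.Adj a y → G.Adj a y' → G.Adj y y' → ψ a y ≠ ψ a y') →
    ∃ f : V → ℕ × ℕ, ∀ v, (f v).1 ≤ n + 1 ∧ ((f v).2 : ℝ) < q ^ (c (f v).1) ∧
      (((nb G v).filter (fun u => f u = f v)).card : ℝ) ≤ D / q ^ (K * c (f v).1) := by
  obtain ⟨b0, hb0, hemb⟩ := Pool.Agent.U750.NL.t_EMB Pool.Agent.U423.NL.t_R n k T hk hT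
  obtain ⟨A, hA⟩ : ∃ A : ℕ, A = ⌈b0⌉₊ + 3 * n + 72 := ⟨_, rfl⟩
  have hAb : b0 ≤ A := by
    rw [hA]
    push_cast
    have := Nat.le_ceil b0
    have : (0 : ℝ) ≤ n := Nat.cast_nonneg _
    linarith
  refine ⟨A, by omega, ?_⟩
  intro K hK
  obtain ⟨c, hc, H⟩ := step_core (K := K) Pool.Agent.U423.NL.t_R
    (Pool.Agent.U689.NL.t_POT Pool.Agent.U423.NL.t_R)
    (Pool.Agent.U454.NL.t_LEVEL Pool.Agent.U571.NL.t_BRW (Pool.Agent.U978.NL.t_LOC t_CELLS))
    hb0 hemb
  have hAK : A ≤ A * K := Nat.le_mul_of_pos_right _ hK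
  have h15 : 15 * K ≤ A * K := Nat.mul_le_mul_right _ (by omega)
  -- the size of the bound
  obtain ⟨W, hW⟩ : ∃ W : ℕ, W = (15 * K) ^ (n + 3) := ⟨_, rfl⟩
  have hW1 : 1 ≤ W := by
    rw [hW]
    exact Nat.one_le_pow _ _ (by omega)
  have hEW : EK K n ≤ (n + 3) * W := by
    rw [hW]
    exact EK_le K n hK
  have hAW : A * A * W ≤ (A * K) ^ A := by
    calc A * A * W ≤ (A * K) * (A * K) * (A * K) ^ (n + 3) := by
          apply Nat.mul_le_mul (Nat.mul_le_mul hAK hAK)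
          rw [hW]
          exact Nat.pow_le_pow_left h15 _
      _ = (A * K) ^ (n + 5) := by ring
      _ ≤ (A * K) ^ A := Nat.pow_le_pow_right (by omega) (by omega)
  refine ⟨c, fun i => ⟨(hc i).1, (hc i).2.trans (hEW.trans ?_)⟩, ?_⟩
  · refine le_trans ?_ hAW
    apply Nat.mul_le_mul_right
    calc n + 3 ≤ A := by omega
      _ ≤ A * A := Nat.le_mul_self A
  · intro q hq
    apply H q
    refine le_trans ?_ hq
    have h1 : (EK K n : ℝ) ≤ (n + 3) * W := by exact_mod_cast hEW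
    have h2 : ((A * A * W : ℕ) : ℝ) ≤ (((A * K) ^ A : ℕ) : ℝ) := by exact_mod_cast hAW
    push_cast at h2 ⊢
    refine le_trans ?_ h2
    have hW1' : (1 : ℝ) ≤ W := by exact_mod_cast hW1
    have hA72 : (72 : ℝ) ≤ A := by
      have : 72 ≤ A := by omega
      exact_mod_cast this
    have hAn : 3 * (n : ℝ) + 72 ≤ A := by
      have : 3 * n + 72 ≤ A := by omega
      exact_mod_cast this
    have hA0 : (0 : ℝ) ≤ A := by linarith
    have hn0 : (0 : ℝ) ≤ n := Nat.cast_nonneg _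
    have h3 : b0 + 60 + 3 * (1 + (EK K n : ℝ)) ≤ (b0 + 63 + 3 * (n + 3)) * W := by nlinarith
    refine h3.trans (mul_le_mul_of_nonneg_right ?_ (by linarith))
    nlinarith

theorem chiQ (n : ℕ) (T : SimpleGraph (Fin (n + 1))) (hT : T.IsTree) (k : ℕ) (hk : 2 ≤ k) :
    ∃ C c : ℝ, 1 ≤ C ∧ 0 < c ∧ c ≤ 1 / 2 ∧ ∀ (V : Type) [Fintype V] (G : SimpleGraph V) (D : ℝ),
      1 ≤ D → (∀ v, ((nb G v).card : ℝ) ≤ D) → G.CliqueFree k → ¬ T.IsIndContained G →
      G.Colorable ⌊Real.exp (C * (1 + Real.log D) ^ (1 - c))⌋₊ := by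
  induction k, hk using Nat.le_induction with
  | base =>
    refine ⟨1, 1 / 2, le_rfl, by norm_num, le_rfl, ?_⟩
    intro V _ G D hD1 hD hfree _
    have h2 : ∀ v u, ¬ G.Adj v u := by
      intro v u hvu
      apply hfree {v, u}
      rw [SimpleGraph.isNClique_iff]
      refine ⟨?_, card_pair hvu.ne⟩
      intro x hx y hy hxy
      rw [mem_coe, mem_insert, mem_singleton] at hx hy
      rcases hx with rfl | rfl <;> rcases hy with rfl | rfl
      · exact absurd rfl hxy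
      · exact hvu
      · exact hvu.symm
      · exact absurd rfl hxy
    have h3 : G.Colorable 1 := colorable_of_nat (fun _ => 0) (fun _ => Nat.one_pos)
      fun v u h => absurd h (h2 v u)
    refine h3.mono (Nat.le_floor ?_)
    push_cast
    apply Real.one_le_exp
    have := Real.log_nonneg hD1
    positivity
  | succ k hk ih =>
    obtain ⟨C', c', hC'1, hc'0, hc'1, hC'⟩ := ih
    obtain ⟨A, hA1, hstep⟩ := stepQ n (k + 1) T (by omega) hT
    have hA1r : (1 : ℝ) ≤ A := by exact_mod_cast hA1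
    obtain ⟨δ, hδ⟩ : ∃ δ : ℝ, δ = c' / (2 * (A + 1)) := ⟨_, rfl⟩
    have hδ0 : 0 < δ := by rw [hδ]; positivity
    have hδA : δ * (A + 1) = c' / 2 := by
      rw [hδ]
      field_simp
    have hδc : δ ≤ c' / 2 := by
      rw [← hδA]
      nlinarith
    obtain ⟨C4, hC4⟩ : ∃ C4 : ℝ, C4 = A * Real.log (4 * A) + 2 * A + C' + 2 +
      Real.log (2 * (n + 2)) := ⟨_, rfl⟩
    have hlogA : 0 ≤ Real.log (4 * A) := Real.log_nonneg (by linarith)
    have hn0 : (0 : ℝ) ≤ n := Nat.cast_nonneg _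
    have hlogn : 0 ≤ Real.log (2 * (n + 2)) := Real.log_nonneg (by linarith)
    have hC40 : 0 < C4 := by rw [hC4]; positivity
    have hl2 : 0 ≤ Real.log 2 := Real.log_nonneg (by norm_num)
    refine ⟨Real.log 2 + (4 * A) ^ (A + 1) * C4 + 1, δ, ?_, hδ0, by linarith, ?_⟩
    · have : 0 ≤ (4 * (A : ℝ)) ^ (A + 1) * C4 := by positivity
      linarith
    intro V _ G D hD1 hD hfree hTG
    have hD0 : 0 < D := by linarith
    have hlD : 0 ≤ Real.log D := Real.log_nonneg hD1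
    obtain ⟨L, hL⟩ : ∃ L : ℝ, L = 1 + Real.log D := ⟨_, rfl⟩
    have hL1 : 1 ≤ L := by linarith
    have hL0 : 0 < L := by linarith
    rw [← hL]
    have hLp : ∀ s : ℝ, 0 ≤ s → 1 ≤ L ^ s := fun s hs => Real.one_le_rpow hL1 hs
    obtain ⟨K', hK'⟩ : ∃ K' : ℕ, K' = ⌈L ^ δ⌉₊ := ⟨_, rfl⟩
    have hK'1 : L ^ δ ≤ K' := by
      rw [hK']
      exact Nat.le_ceil _
    have hK'2 : (K' : ℝ) ≤ 2 * L ^ δ := by
      rw [hK']
      have := Nat.ceil_lt_add_one (show 0 ≤ L ^ δ by positivity)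
      have := hLp δ hδ0.le
      linarith
    have hKr : (1 : ℝ) ≤ K' := (hLp δ hδ0.le).trans hK'1
    have hK1 : 1 ≤ K' := by exact_mod_cast hKr
    have hKr0 : (0 : ℝ) < K' := by linarith
    obtain ⟨c, hc, H⟩ := hstep (2 * K') (by omega)
    obtain ⟨a1, ha1⟩ : ∃ a1 : ℝ, a1 = ((A * (2 * K') : ℕ) : ℝ) ^ A := ⟨_, rfl⟩
    obtain ⟨a2, ha2⟩ : ∃ a2 : ℝ, a2 = Real.exp (C' * L ^ (1 - c')) := ⟨_, rfl⟩
    have hAK1 : (1 : ℝ) ≤ ((A * (2 * K') : ℕ) : ℝ) := by
      have : 1 ≤ A * (2 * K') := Nat.mul_pos hA1 (by omega)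
      exact_mod_cast this
    have ha11 : 1 ≤ a1 := by
      rw [ha1]
      exact one_le_pow₀ hAK1
    have ha21 : 1 ≤ a2 := by
      rw [ha2]
      apply Real.one_le_exp
      positivity
    have ha3 : (1 : ℝ) ≤ 2 * (n + 2) := by linarith
    obtain ⟨q, hq⟩ : ∃ q : ℝ, q = a1 * a2 * L * (2 * (n + 2)) := ⟨_, rfl⟩
    have hq1' : a1 ≤ q := by
      rw [hq]
      have h1 : a1 * 1 ≤ a1 * a2 := mul_le_mul_of_nonneg_left ha21 (by linarith)
      have h2 : a1 * a2 * 1 ≤ a1 * a2 * L := mul_le_mul_of_nonneg_left hL1 (by positivity)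
      have h3 : a1 * a2 * L * 1 ≤ a1 * a2 * L * (2 * (n + 2)) :=
        mul_le_mul_of_nonneg_left ha3 (by positivity)
      linarith
    have hq2' : a2 ≤ q := by
      rw [hq]
      have h1 : 1 * a2 ≤ a1 * a2 := mul_le_mul_of_nonneg_right ha11 (by linarith)
      have h2 : a1 * a2 * 1 ≤ a1 * a2 * L := mul_le_mul_of_nonneg_left hL1 (by positivity)
      have h3 : a1 * a2 * L * 1 ≤ a1 * a2 * L * (2 * (n + 2)) :=
        mul_le_mul_of_nonneg_left ha3 (by positivity)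
      linarith
    have h12 : 1 ≤ a1 * a2 := by nlinarith
    have hq3' : L ≤ q := by
      rw [hq]
      have h2 : 1 * L ≤ a1 * a2 * L := mul_le_mul_of_nonneg_right h12 hL0.le
      have h3 : a1 * a2 * L * 1 ≤ a1 * a2 * L * (2 * (n + 2)) :=
        mul_le_mul_of_nonneg_left ha3 (by positivity)
      linarith
    have hq4' : 2 * ((n : ℝ) + 2) ≤ q := by
      rw [hq]
      have h2 : 1 ≤ a1 * a2 * L := by nlinarith
      have h3 : 1 * (2 * ((n : ℝ) + 2)) ≤ a1 * a2 * L * (2 * (n + 2)) :=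
        mul_le_mul_of_nonneg_right h2 (by linarith)
      linarith
    have hq0 : 0 < q := by linarith
    obtain ⟨Q, hQ⟩ : ∃ Q : ℕ, Q = ⌊a2⌋₊ := ⟨_, rfl⟩
    have hQpos : 0 < Q := by
      rw [hQ]
      exact Nat.floor_pos.2 ha21
    have hQq : (Q : ℝ) ≤ q := by
      have h1 : (Q : ℝ) ≤ a2 := by
        rw [hQ]
        exact Nat.floor_le (by linarith)
      exact h1.trans hq2'
    -- the colourings of the neighbourhoods
    have hcol' : ∀ a : V, ∃ f : V → ℕ, (∀ y, f y < Q) ∧ ∀ y y', G.Adj a y → G.Adj a y' →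
        G.Adj y y' → f y ≠ f y' := by
      intro a
      have h0 : (sub G (nb G a)).Colorable Q := by
        rw [hQ, ha2, hL]
        refine hC' {x // x ∈ nb G a} (sub G (nb G a)) D hD1 (fun v => ?_)
          (nbhd_free hfree (Finset.Subset.refl _)) (sub_tree hTG _)
        refine le_trans ?_ (hD v.1)
        have h1 := sub_nb (G := G) v
        have h2 : (nb G v.1 ∩ nb G a).card ≤ (nb G v.1).card := card_le_card inter_subset_left
        exact_mod_cast h1.trans h2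
      obtain ⟨F⟩ := h0
      refine ⟨fun y => if h : y ∈ nb G a then (F ⟨y, h⟩ : ℕ) else 0, ?_, ?_⟩
      · intro y
        dsimp only
        split_ifs with h
        · exact (F ⟨y, h⟩).2
        · exact hQpos
      · intro y y' hy hy' hyy
        dsimp only
        rw [dif_pos (mem_nb.2 hy), dif_pos (mem_nb.2 hy')]
        intro heq
        have h1 : (sub G (nb G a)).Adj ⟨y, mem_nb.2 hy⟩ ⟨y', mem_nb.2 hy'⟩ := sub_adj.2 hyy
        exact F.valid h1 (Fin.ext heq)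
    choose ψ hψ1 hψ2 using hcol'
    obtain ⟨N, hN⟩ := pow_unbounded_of_one_lt D (by norm_num : (1 : ℝ) < 2)
    obtain ⟨E, hE⟩ : ∃ E : ℕ, E = (A * (2 * K')) ^ A := ⟨_, rfl⟩
    have hE1 : 1 ≤ E := by
      rw [hE]
      exact Nat.one_le_pow _ _ (Nat.mul_pos hA1 (by omega))
    have hmain := claim (q := q) (D0 := D) (Q := Q) (c := c) (E := E) hK1 hE1 hq4'
      (by rw [hE]; exact hc)
      (fun V' _ G' D' ψ' h1 h2 h3 h4 h5 h6 h7 =>
        H q (by rw [← ha1]; exact hq1') V' G' D' Q ψ' h1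
          ((Real.log_le_log (by linarith) h2).trans (by linarith)) hQq h3 h4 h5 h6 h7)
      N V G D ψ hD1 le_rfl hN.le hD hfree hTG hψ1 hψ2
    refine hmain.mono (Nat.floor_le_floor ?_)
    -- the computation
    have hlogL : Real.log L ≤ 2 * L ^ (1 - c') := by
      have h1 : Real.log L ≤ L ^ (1 / 2 : ℝ) / (1 / 2) := Real.log_le_rpow_div hL0.le (by norm_num)
      have h2 : L ^ (1 / 2 : ℝ) ≤ L ^ (1 - c') :=
        Real.rpow_le_rpow_of_exponent_le hL1 (by linarith)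
      linarith
    have hLc : 1 ≤ L ^ (1 - c') := hLp _ (by linarith)
    have hlogq : Real.log q ≤ C4 * L ^ (1 - c') := by
      rw [hq, Real.log_mul (by positivity) (by positivity),
        Real.log_mul (by positivity) (by positivity),
        Real.log_mul (by positivity) (by positivity), ha1, ha2, Real.log_exp, Real.log_pow]
      have h1 : Real.log ((A * (2 * K') : ℕ) : ℝ) ≤ Real.log (4 * A) + δ * Real.log L := by
        rw [← Real.log_rpow hL0, ← Real.log_mul (by positivity) (by positivity)]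
        apply Real.log_le_log (by linarith)
        push_cast
        have : (A : ℝ) * (2 * K') ≤ A * (2 * (2 * L ^ δ)) := by
          apply mul_le_mul_of_nonneg_left _ (by linarith)
          linarith
        linarith
      have hlL0 : 0 ≤ Real.log L := Real.log_nonneg hL1
      have h2 : δ * Real.log L ≤ 2 * L ^ (1 - c') := by
        have : δ * Real.log L ≤ 1 * Real.log L := mul_le_mul_of_nonneg_right (by linarith) hlL0
        linarith
      have h3 : Real.log ((A * (2 * K') : ℕ) : ℝ) ≤ (Real.log (4 * A) + 2) * L ^ (1 - c') := by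
        have h4 : Real.log (4 * A) * 1 ≤ Real.log (4 * A) * L ^ (1 - c') :=
          mul_le_mul_of_nonneg_left hLc hlogA
        nlinarith
      have h5 : (A : ℝ) * Real.log ((A * (2 * K') : ℕ) : ℝ) ≤
          A * ((Real.log (4 * A) + 2) * L ^ (1 - c')) :=
        mul_le_mul_of_nonneg_left h3 (by linarith)
      have h6 : Real.log (2 * ((n : ℝ) + 2)) * 1 ≤ Real.log (2 * ((n : ℝ) + 2)) * L ^ (1 - c') :=
        mul_le_mul_of_nonneg_left hLc hlogn
      rw [hC4]
      nlinarith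
    have hlogq0 : 0 ≤ Real.log q := Real.log_nonneg (by linarith)
    have hexp : ((E * (2 * K') : ℕ) : ℝ) ≤ (4 * A) ^ (A + 1) * L ^ (c' / 2) := by
      have h1 : ((E * (2 * K') : ℕ) : ℝ) ≤ ((A * (2 * K') : ℕ) : ℝ) ^ (A + 1) := by
        have h2 : E * (2 * K') ≤ (A * (2 * K')) ^ (A + 1) := by
          rw [hE, pow_succ]
          exact Nat.mul_le_mul_left _ (Nat.le_mul_of_pos_left _ hA1)
        exact_mod_cast h2
      refine h1.trans ?_
      have h2 : ((A * (2 * K') : ℕ) : ℝ) ≤ 4 * A * L ^ δ := by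
        push_cast
        have : (A : ℝ) * (2 * K') ≤ A * (2 * (2 * L ^ δ)) := by
          apply mul_le_mul_of_nonneg_left _ (by linarith)
          linarith
        linarith
      calc ((A * (2 * K') : ℕ) : ℝ) ^ (A + 1) ≤ (4 * A * L ^ δ) ^ (A + 1) :=
            pow_le_pow_left₀ (by linarith) h2 _
        _ = (4 * A) ^ (A + 1) * L ^ (c' / 2) := by
          rw [mul_pow]
          congr 1
          rw [← Real.rpow_natCast, ← Real.rpow_mul hL0.le, ← hδA]
          congr 1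
          push_cast
          ring
    have hDK : Real.log (D ^ (1 / (K' : ℝ))) ≤ L ^ (1 - δ) := by
      rw [Real.log_rpow hD0]
      have h1 : 1 / (K' : ℝ) * Real.log D ≤ 1 / (K' : ℝ) * L :=
        mul_le_mul_of_nonneg_left (by linarith) (by positivity)
      refine h1.trans ?_
      rw [Real.rpow_sub hL0, Real.rpow_one, one_div_mul_eq_div]
      exact div_le_div_of_nonneg_left hL0.le (by positivity) hK'1
    have hpos : 0 < 2 * q ^ (E * (2 * K')) * D ^ (1 / (K' : ℝ)) := by positivity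
    rw [← Real.log_le_iff_le_exp hpos, Real.log_mul (by positivity) (by positivity),
      Real.log_mul (by norm_num) (by positivity), Real.log_pow]
    have h1 : ((E * (2 * K') : ℕ) : ℝ) * Real.log q ≤
        ((4 * A) ^ (A + 1) * L ^ (c' / 2)) * (C4 * L ^ (1 - c')) :=
      mul_le_mul hexp hlogq hlogq0 (by positivity)
    have h2 : ((4 * (A : ℝ)) ^ (A + 1) * L ^ (c' / 2)) * (C4 * L ^ (1 - c')) =
        (4 * A) ^ (A + 1) * C4 * L ^ (1 - c' / 2) := by
      have h3 : L ^ (1 - c' / 2) = L ^ (c' / 2) * L ^ (1 - c') := by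
        rw [← Real.rpow_add hL0]
        congr 1
        ring
      rw [h3]
      ring
    rw [h2] at h1
    have h4 : L ^ (1 - c' / 2) ≤ L ^ (1 - δ) :=
      Real.rpow_le_rpow_of_exponent_le hL1 (by linarith)
    have h5 : (4 * (A : ℝ)) ^ (A + 1) * C4 * L ^ (1 - c' / 2) ≤
        (4 * A) ^ (A + 1) * C4 * L ^ (1 - δ) := mul_le_mul_of_nonneg_left h4 (by positivity)
    have h6 : Real.log 2 * 1 ≤ Real.log 2 * L ^ (1 - δ) :=
      mul_le_mul_of_nonneg_left (hLp _ (by linarith)) hl2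
    nlinarith

/-- **The chromatic number of graphs without an induced forest, quantitative form.** -/
theorem chi_forestQ (m : ℕ) (F : SimpleGraph (Fin m)) (hF : F.IsAcyclic) (k : ℕ) :
    ∃ C c : ℝ, 0 < c ∧ ∀ (V : Type) [Fintype V] (G : SimpleGraph V) (D : ℝ), 1 ≤ D →
      (∀ v, ((nb G v).card : ℝ) ≤ D) → G.CliqueFree k → ¬ F.IsIndContained G →
      G.Colorable ⌊Real.exp (C * (1 + Real.log D) ^ (1 - c))⌋₊ := by
  obtain ⟨T, hT, ⟨ι0⟩⟩ := Pool.Agent.H367R3.forest_in_tree F hF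
  obtain ⟨C, c, _, hc, _, H⟩ := chiQ m T hT (k + 2) (by omega)
  refine ⟨C, c, hc, ?_⟩
  intro V _ G D hD hdeg hfree hFG
  apply H V G D hD hdeg (hfree.mono (by omega))
  rintro ⟨φ⟩
  exact hFG ⟨ι0.trans φ⟩

end Pool.Agent.U797.NL
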