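import Pool.Agent.U797.LV.Lev

set_option autoImplicit false

/-!
# Project NL: independent sets with `c n / Δ ^ ε` vertices in graphs without an induced forest

`nb G v : Finset V` (from `Pool.Agent.U797.LV.Lev`, lemma `mem_nb : y ∈ nb G v ↔ G.Adj v y`) is the
set of neighbours.  Useful there: `sum_inter_nb` (double counting
`∑ a ∈ S, |T ∩ nb a| = ∑ w ∈ T, |S ∩ nb w|`), `few` (Markov), `non_nb`.
-/

namespace Pool.Agent.U797.NL

open Finset
open scoped Classical
open Pool.Agent.U797.LV (nb)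

/-- `I` is an independent set -/
def Ind {V : Type} (G : SimpleGraph V) (I : Finset V) : Prop := ∀ x ∈ I, ∀ y ∈ I, ¬ G.Adj x y

/-- rich sets of neighbours: `C` is a set of neighbours of `v`; at level `i + 1` every `y ∈ C` has a
nonempty rich set `P y` of level `i` (with constant `b`), and a random element of `P y`, `y` random
in `C`, is in `nb u` with probability at most `1 / B`, for every vertex `u`. -/
def Rich {V : Type} [Fintype V] (G : SimpleGraph V) (b : ℝ) : ℕ → ℝ → V → Finset V → Prop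
  | 0, _, v, C => C ⊆ nb G v
  | i + 1, B, v, C => C ⊆ nb G v ∧ ∃ P : V → Finset V,
      (∀ y ∈ C, (P y).Nonempty ∧ Rich G b i b y (P y)) ∧
      ∀ u, ∑ y ∈ C, ((P y ∩ nb G u).card : ℝ) / ((P y).card : ℝ) ≤ (C.card : ℝ) / B

/-- PACKAGE R (25 minutes): four simple facts on rich sets.
(1) smaller `B` is weaker; (2) a subset of relative size `η` of a rich set is rich with `η B`
(the sum over `C'` is at most the sum over `C`, at most `|C| / B ≤ |C'| / (η B)`; same `P`);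
(3) the union of two disjoint rich sets is rich (take `P` of the first set on the first set, of the
second on the second, `if y ∈ C then P y else P' y`; add the two inequalities);
(4) a nonempty rich set of level `i + 1` has at least `B` elements (take `u = y0 ∈ C`: the term
`y = y0` of the sum is `1`, as `P y0 ⊆ nb y0` -- `Rich` of every level has `C ⊆ nb v`). -/
def S_R : Prop := ∀ (V : Type) [Fintype V] (G : SimpleGraph V) (b : ℝ), 0 < b →
  (∀ (i : ℕ) (B B' : ℝ) (v : V) (C : Finset V), 0 < B' → B' ≤ B → Rich G b i B v C →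
    Rich G b i B' v C) ∧
  (∀ (i : ℕ) (B η : ℝ) (v : V) (C C' : Finset V), 0 < B → 0 < η → C' ⊆ C →
    η * (C.card : ℝ) ≤ (C'.card : ℝ) → Rich G b i B v C → Rich G b i (η * B) v C') ∧
  (∀ (i : ℕ) (B : ℝ) (v : V) (C C' : Finset V), 0 < B → Disjoint C C' →
    Rich G b i B v C → Rich G b i B v C' → Rich G b i B v (C ∪ C')) ∧
  (∀ (i : ℕ) (B : ℝ) (v : V) (C : Finset V), 0 < B → C.Nonempty →
    Rich G b (i + 1) B v C → B ≤ (C.card : ℝ))

/-- PACKAGE EMB (60 minutes): a nonempty rich set of level `n + 1` with a large constant gives an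
induced copy of every tree with `n + 1` vertices.

HINT. This is an adaptation of `Pool.Agent.U797.LV.Ext` (`ext`, 350 lines) and
`Pool.Agent.U797.LV.Emb` (`order`, `embed`): copy these two files and change the invariants.
Order the tree (`order`: parents `p j < j`). Configuration with `j` vertices:
`φ i`, `C i ⊆ nb (φ i)`, levels `l i` with `n + 1 ≤ l i + i`, `C i` nonempty and
`Rich G b (l i) B_j (φ i) (C i)`, `B_j = b / (2k)^(j-1)`; for `i ≠ i'`
`|C i ∩ nb (φ i')| ≤ δ_j |C i|` and `∑ x ∈ C i, |C i' ∩ nb x| ≤ δ_j |C i| |C i'|`; `φ` injective and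
adjacent exactly as in the tree. Start: `j = 1`, `φ 0 = v`, `C 0 = C`, `l 0 = n + 1`.
Step: `r = p j`, `l r = q + 1 ≥ 2`, `P` the family of the rich set `C r`. Remove from `C r` the
`y` with, for some `i < j`: `y = φ i` (at most one, and `|C r| ≥ B_j` by S_R (4)); `i ≠ r` and
`y ∈ nb (φ i)` (at most `δ |C r|`); `|P y ∩ nb (φ i)| > δ' |P y|` (at most `|C r| / (B δ')` by the
inequality in `Rich` with `u = φ i`, Markov); `i ≠ r` and `|C i ∩ nb y| > δ' |C i|` (at most
`δ / δ' |C r|`); `∑ x ∈ C i, |P y ∩ nb x| > δ' |P y| |C i|` (at most `|C r| / (B δ')`: sum the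
inequality of `Rich` over `u = x ∈ C i`). In all at most `|C r| / 2` when
`n (1 / B + δ + 2 / (B δ') + δ / δ') ≤ 1/2`. By `non_nb` there is a remaining `y` with
`|C r \ nb y| ≥ |C r| / (2k)`. Put `φ j = y`, `C j = P y` (rich of level `q`, constant `b ≥ B_{j+1}`),
replace `C r` by `C r \ nb y` (rich with `B_j / (2k)` by S_R (2)); all invariants hold with
`2 k δ'`. Take `δ' = 8 (n+1) δ_j`, `δ_{j+1} = 16 k (n+1) δ_j`, `δ_1 = (16 k (n+1))^(-(n+2))`, `b0` huge,
e.g. `(16 k (n+1))^(3n+6)`. You may use S_R as a hypothesis. -/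
def S_EMB : Prop := ∀ (n k : ℕ) (T : SimpleGraph (Fin (n + 1))), 1 ≤ k → T.IsTree →
  ∃ b0 : ℝ, 1 ≤ b0 ∧ ∀ b : ℝ, b0 ≤ b → ∀ (V : Type) [Fintype V] (G : SimpleGraph V),
    G.CliqueFree k → ∀ (v : V) (C : Finset V), C.Nonempty → Rich G b (n + 1) b v C →
    T.IsIndContained G

/-- PACKAGE POT (40 minutes): if `Z ⊆ nb v` has no nonempty rich subset of level `i + 1` with
constant `β` then a few neighbourhoods `nb u`, `u ∈ U`, cover almost all of `L y` for all but few
`y ∈ Z`.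

HINT. For `U : Finset V` let `a U y = |L y \ U.biUnion (nb G)|`, call `y ∈ Z` active for `U` if
`η |L y| < a U y`, and let `Ψ U = ∑ over active y of (1 + log (a U y / (η |L y|)))`.
(For active `y`: `L y` is nonempty, `a > 0`, `a / (η |L y|) > 1`.)
`Ψ ∅ ≤ |Z| (1 + log (1/η))`. If the set `A` of active vertices has more than `lam |Z|` elements (so
it is nonempty) put `P y = L y \ U.biUnion (nb G)`: nonempty, and rich of level `i` with constant
`b ≤ η B` by S_R (1), (2). As `A` is not rich, there is a vertex `u` with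
`∑ y ∈ A, |P y ∩ nb u| / |P y| > |A| / β`. For `U' = insert u U`: active for `U'` implies active
for `U`; `Ψ U' ≤ Ψ U - ∑ y ∈ A, ε y`, `ε y = |P y ∩ nb u| / |P y| = 1 - a U' y / a U y`: if `y`
stays active, `log (a U y) - log (a U' y) ≥ 1 - a U' y / a U y` (`Real.one_sub_inv_le_log_of_pos`);
if not, its term was `≥ 1 ≥ ε y`. So each step lowers `Ψ` by at least `lam |Z| / β`; by
induction on `j`: either some `U` with at most `T` elements works or there are `U_j`, `|U_j| ≤ j`, with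
`Ψ U_j ≤ |Z| (1 + log (1/η)) - j lam |Z| / β`, strictly less once `j ≥ 1`; for `j = T` this is
negative, but `Ψ ≥ 0`. (Case `T = 0`: the hypothesis gives `β (1 + log(1/η)) ≤ 0`, impossible.) -/
def S_POT : Prop := ∀ (V : Type) [Fintype V] (G : SimpleGraph V) (i T : ℕ) (b B β η lam : ℝ)
  (v : V) (L : V → Finset V) (Z : Finset V), 0 < b → 0 < B → 0 < β → 0 < η → η ≤ 1 → 0 < lam →
  b ≤ η * B → Z ⊆ nb G v → (∀ y ∈ Z, Rich G b i B y (L y)) →
  (∀ C ⊆ Z, C.Nonempty → ¬ Rich G b (i + 1) β v C) →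
  β * (1 + Real.log (1 / η)) ≤ lam * T →
  ∃ U : Finset V, U.card ≤ T ∧
    ((Z.filter (fun y => η * ((L y).card : ℝ) < ((L y \ U.biUnion (nb G)).card : ℝ))).card : ℝ) ≤
      lam * Z.card

/-- PACKAGE COL (15 minutes): a colouring with small total weight of the monochromatic pairs.
HINT. Induction on a finset `s` of coloured vertices: colour the new vertex `a` with the colour `j`
that minimises the sum of `w a x + w x a` over the `x ∈ s` of colour `j`; the minimum is at most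
`1/N` times the sum over all `x ∈ s`. -/
def S_COL : Prop := ∀ (V : Type) [Fintype V] (N : ℕ) (w : V → V → ℝ), 1 ≤ N →
  (∀ x y, 0 ≤ w x y) →
  ∃ f : V → Fin N, (N : ℝ) * ∑ x, ∑ y, (if x ≠ y ∧ f x = f y then w x y else 0) ≤
    ∑ x, ∑ y, (if x ≠ y then w x y else 0)

/-- PACKAGE KILL (60 minutes): many arcs `a → y`, `y ∈ E a`, for which `R a` contains almost all of
`L y` give a large set of vertices with small degrees.

HINT. Let `S y = {a | y ∈ E a}` (`|S y| ≤ D` as `S y ⊆ nb y`), `R' a = R a \ E a`,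
`Q y = {a | y ∈ R' a}`. `∑ |S y| = ∑ |E a| ≥ lam n D`, `∑ |Q y| ≤ t n D`. Let
`Y = {y | |Q y| ≤ (2 t / lam) D}`: the others are at most `lam n / 2`, so
`∑ y ∈ Y, |S y| ≥ lam n D / 2`. Let `N = ⌈4 (2 t / lam + 1) D⌉ ≤ 13 t D / lam`. S_COL with
`w a a' = #{y ∈ Y | a ∈ S y ∧ (a' ∈ S y ∨ a' ∈ Q y)}` (total at most
`∑ y ∈ Y, |S y| (D + 2 t D / lam) ≤ N/4 ∑ y ∈ Y, |S y|`) gives `f : V → Fin N`. Call `a ∈ S y`
free for `y` if no `a' ≠ a` in `S y ∪ Q y` has `f a' = f a`. Then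
`∑ y ∈ Y, #{free a} ≥ 3/4 ∑ y ∈ Y, |S y| ≥ lam n D / 4`. For a colour `j` let
`U j = {y ∈ Y | some a is free for y and f a = j}`; since `f` is injective on the free `a` of `y`,
`∑ j, |U j| = ∑ y ∈ Y, #{free a} ≥ lam n D / 4`. Let `y ∈ U j` with free `a`, and
`v ∈ U j` a neighbour of `y`, with free `a_v ∈ S v`, `f a_v = f a = j`. Then `v ∉ R' a`
(otherwise `a ∈ Q v`; `a = a_v` is impossible as `v ∈ E a_v`, `v ∉ E a`; `a ≠ a_v` contradicts
free). `v ∉ E a`, since `y ∈ E a` and `E a` is independent. So `v ∉ R a`,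
`v ∈ (L y \ R a) ∪ (nb y \ L y)`. So `∑ j, ∑ y ∈ U j, |nb y ∩ U j| ≤
∑ y, D (eta D + |nb y \ L y|) ≤ (eta + lam0) n D ^ 2` (for each `y` at most `|S y| ≤ D` colours `j`).
So `∑ j, (|U j| - (∑ y ∈ U j, |nb y ∩ U j|) / (del D)) ≥ lam n D / 4 - (eta + lam0) n D / del ≥
lam n D / 8`, so some `j` has `|U j| - (...)/(del D) ≥ lam n D / (8 N) ≥ lam ^ 2 n / (104 t)`. Finally
keep the `y ∈ U j` with `|nb y ∩ U j| ≤ 2 del D`: at least half of them. You may use S_COL. -/
def S_KILL : Prop := ∀ (V : Type) [Fintype V] (G : SimpleGraph V)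
  (D t lam eta lam0 del : ℝ) (L E R : V → Finset V), 1 ≤ D → 1 ≤ t → 0 < lam → lam ≤ 1 →
  0 < del → 0 ≤ eta → 0 ≤ lam0 → eta + lam0 ≤ lam * del / 8 →
  (∀ v, ((nb G v).card : ℝ) ≤ D) → (∀ a, E a ⊆ nb G a) → (∀ a, Ind G (E a)) →
  (∀ a, ((R a).card : ℝ) ≤ t * D) → (∀ a, ∀ y ∈ E a, ((L y \ R a).card : ℝ) ≤ eta * D) →
  lam * (Fintype.card V : ℝ) * D ≤ ∑ a, ((E a).card : ℝ) →
  ∑ y, ((nb G y \ L y).card : ℝ) ≤ lam0 * (Fintype.card V : ℝ) * D →
  ∃ U : Finset V, lam ^ 2 * (Fintype.card V : ℝ) ≤ 208 * t * (U.card : ℝ) ∧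
    ∀ y ∈ U, ((nb G y ∩ U).card : ℝ) ≤ 2 * del * D

/-- one step of the iteration (helper797 proves `S_R → S_EMB → S_POT → S_KILL → S_PROG`) -/
def S_PROG : Prop := ∀ (n k K : ℕ) (T : SimpleGraph (Fin (n + 1))), 1 ≤ k → 1 ≤ K → T.IsTree →
  ∃ E : ℕ, 1 ≤ E ∧ ∃ q0 : ℝ, 2 ≤ q0 ∧ ∀ q : ℝ, q0 ≤ q →
  ∀ (V : Type) [Fintype V] (G : SimpleGraph V) (D : ℝ), 1 ≤ D →
    (∀ v, ((nb G v).card : ℝ) ≤ D) → G.CliqueFree k → ¬ T.IsIndContained G →
    (∀ a, ∀ S ⊆ nb G a, ∃ I ⊆ S, Ind G I ∧ (S.card : ℝ) ≤ q * I.card) →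
    ∃ (c : ℕ) (U : Finset V), 1 ≤ c ∧ c ≤ E ∧ (Fintype.card V : ℝ) ≤ q ^ c * (U.card : ℝ) ∧
      ∀ y ∈ U, ((nb G y ∩ U).card : ℝ) ≤ D / q ^ (c * K)

/-- the result on independent sets -/
def S_IND : Prop := ∀ (n k : ℕ) (T : SimpleGraph (Fin (n + 1))), 2 ≤ k → T.IsTree → ∀ ε : ℝ, 0 < ε →
  ∃ C : ℝ, 1 ≤ C ∧ ∀ (V : Type) [Fintype V] (G : SimpleGraph V) (D : ℝ), 1 ≤ D →
    (∀ v, ((nb G v).card : ℝ) ≤ D) → G.CliqueFree k → ¬ T.IsIndContained G →
    ∃ I : Finset V, Ind G I ∧ (Fintype.card V : ℝ) ≤ C * D ^ ε * (I.card : ℝ)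

/-- PACKAGE ITER (50 minutes): `S_PROG → S_IND`.
HINT. Induction on `k`. `k = 2`: no edges (`CliqueFree 2`), `I = univ`, `C = 1`. Step from `k` to
`k + 1`: given `ε`, let `K = ⌈2/ε⌉ + 1`, `E, q0` from S_PROG for `k + 1`, `ε' = ε / (2 E K)`, `C'` from
the induction hypothesis for `k, ε'`. For a graph with bound `D` put `q = q0 C' D^ε'` (at least `q0`,
and the neighbourhood condition of S_PROG holds: `G.induce S`, `S ⊆ nb a`, has no `k`-clique and no
induced `T` (cf. `nbhd_free`, `main_tree` in `Pool.Agent.U797.LV.Main`) and degrees at most `D`; it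
also holds for all induced subgraphs of `G`).
Claim, by induction on `N`: for fixed `q`, every graph `G` with `T`-, `K_(k+1)`-free, degrees
`≤ D`, `1 ≤ D ≤ 2^N` and the neighbourhood condition for this `q` has an independent `I` with
`n ≤ 2 q^(E K) D^(1/K) |I|`. If `D < q^(E K)`: greedy colouring with `⌊D⌋ + 1 ≤ 2 D` colours
(`Pool.Agent.U797.LV.low_colour` in `Cells.lean`, or directly), largest class. Otherwise S_PROG gives
`c, U`; `D' = D / q^(c K) ≥ 1`, `D' ≤ D / 2`; the claim for `G.induce U` gives `I` with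
`|U| ≤ 2 q^(E K) D'^(1/K) |I|` and `n ≤ q^c |U|`, and `q^c D'^(1/K) = D^(1/K)`.
So `n ≤ 2 (q0 C')^(E K) D^(ε' E K + 1/K) |I| ≤ C D^ε |I|`. -/
def S_ITER : Prop := S_PROG → S_IND

/-- PACKAGE WEI (45 minutes): from sizes to weights.
HINT. Let `L` be a natural number with `2 D ≤ 2 ^ L`, `L ≤ 2 + 2 log D` (`L = ⌈log (2 D) / log 2⌉`).
Vertices of weight `0` play no role. Let `M` be the largest weight (if all weights are `0` take
`I = ∅`), class of `v`: the `j : ℕ` with `M / 2^(j+1) < w v ≤ M / 2^j`. Choose the residue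
`r` mod `L` for which the classes `j ≡ r` have total weight `≥ 1/L` of all. For sets `S` of vertices
in classes `≡ r` show by induction on `|S|` (or on the number of classes in `S`): there is an
independent `I ⊆ S` with `w(S) ≤ (2 A + 1) w(I)`: let `S0` be the part of `S` in the first class
`j` that occurs, `I0 ⊆ S0` independent with `|S0| ≤ A |I0|`, so `w(S0) ≤ 2 A w(I0)`; apply the
induction hypothesis to `S1 = S \ S0 \ N(I0)`; the removed vertices outside `S0` have classes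
`≥ j + L`, so weight at most `2^(1-L) w(x) ≤ w(x) / D` for the `x ∈ I0` they are adjacent to,
in all at most `w(I0)`. So `w(S) ≤ (2 A + 1) w(I0) + (2 A + 1) w(I1)`. -/
def S_WEI : Prop := ∀ (V : Type) [Fintype V] (G : SimpleGraph V) (D A : ℝ), 1 ≤ D → 1 ≤ A →
  (∀ v, ((nb G v).card : ℝ) ≤ D) →
  (∀ S : Finset V, ∃ I ⊆ S, Ind G I ∧ (S.card : ℝ) ≤ A * (I.card : ℝ)) →
  ∀ w : V → ℝ, (∀ v, 0 ≤ w v) →
  ∃ I : Finset V, Ind G I ∧ ∑ v, w v ≤ 3 * A * (2 + 2 * Real.log D) * ∑ v ∈ I, w v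

end Pool.Agent.U797.NL
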