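import Pool.Agent.U797.NL.Spec

set_option autoImplicit false

/-!
# Project NL, part 2: the chromatic number is at most `C Δ ^ ε`
-/

namespace Pool.Agent.U797.NL

open Finset
open scoped Classical
open Pool.Agent.U797.LV (nb)

/-- (helper797 proves this one) a random colouring of the cells -/
def S_CELLS : Prop := ∀ (V T : Type) [Fintype T] (K m s r d : ℕ), 1 ≤ m → 1 ≤ s → 8 * r ≤ m * s →
  ∀ (X : Finset V) (S R : V → Finset T), (∀ v ∈ X, (S v).card = s) → (∀ v ∈ X, (R v).card ≤ r) →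
  (∀ v ∈ X, Disjoint (S v) (R v)) → 1 ≤ d →
  (∀ v ∈ X, ∃ U : Finset V, U.card ≤ d ∧ ∀ u ∈ X, ∀ c, (c ∈ S v ∨ c ∈ R v) →
    (c ∈ S u ∨ c ∈ R u) → u ∈ U) → 4 * d ≤ 2 ^ K →
  ∃ f : V → ℕ, ∀ v ∈ X, f v < K * m ∧ ∃ c ∈ S v, ∀ u ∈ X, f v = f u → c ∉ R u

/-- PACKAGE BRW (40 minutes): Brouwer's fixed point theorem gives weights of the centres.

HINT. Brouwer's theorem is in the starting library: `Pool.Agent.Helper133.Brouwer` (theorem `brouwer`, for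
normed spaces, line 411) or `Pool.Agent.H15.Brouwer` (line 230); take whichever is easier to apply on
`stdSimplex ℝ T` (for the first, `E = T → ℝ`). For `x : T → ℝ` with `x > 0` let `F c x` be the
left side below. `∑ c, x c * F c x = ∑ y, (∑ c' with y ∈ R c', x c') + β ∑ c, ∑ c' ∈ B c, x c'
(only the y that are in some E c) ≤ ∑ c, x c (|R c| + β |B c|) ≤ A ∑ c, x c` (exchange the sums:
`∑ c, x c ∑ y ∈ E c, r y / s y = ∑ y, (r y / s y) s y`, `s y = ∑ c with y ∈ E c, x c`; `B` is symmetric).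
Let `δ = 1 / |T|` and, for `x` in the simplex, `x' = x + δ` (all coordinates), `g c x = x' c * F c x'`
(continuous on the simplex as `x' ≥ δ`; `g c x ≥ β x' c > 0`). The map `x ↦ g x / ∑ g x` maps the simplex to
itself, so it has a fixed point `x`: `g c x = σ x c`, `σ = ∑ g x ≤ A ∑ x' = 2 A`. So
`x' c * F c x' = σ x c ≤ 2 A x' c`, `F c x' ≤ 2 A`. Take `p = x'`. -/
def S_BRW : Prop := ∀ (T Y : Type) [Fintype T] [Fintype Y] [Nonempty T] (E R : T → Finset Y)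
  (B : T → Finset T) (β A : ℝ), 0 < β → (∀ c, c ∈ B c) → (∀ c c', c' ∈ B c → c ∈ B c') →
  (∀ c, ((R c).card : ℝ) + β * ((B c).card : ℝ) ≤ A) →
  ∃ p : T → ℝ, (∀ c, 0 < p c) ∧ ∀ c,
    ∑ y ∈ E c, (∑ c' ∈ univ.filter (fun c' => y ∈ R c'), p c') /
      (∑ c' ∈ univ.filter (fun c' => y ∈ E c'), p c') + β * (∑ c' ∈ B c, p c') / p c ≤ 2 * A

/-- PACKAGE LOC (50 minutes): `S_CELLS → S_LOC`, the weighted form of S_CELLS.

HINT. For `v ∈ X` let `w v = ∑ c ∈ S v, p c > 0`, scale `z v = ⌊Real.logb 2 (w v)⌋ : ℤ`, so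
`2^z ≤ w v < 2^(z+1)`. If `A v u` then `|z v - z u| ≤ Λ`, as the logarithms differ by at most `Λ`.
Apply S_CELLS for each scale `z` to `X_z = {v ∈ X | z v = z}` with copies of the centres:
`s = |T| + 1` (so `1 ≤ s`), unit `η = 2^z / (2 s)`, `n c = ⌊p c / η⌋₊` copies of `c`:
`T' = T × Fin N` with `N = 1 + ∑ c, n c` (or any bound of all the `n c`), `S' v = {(c, i) | c ∈ S v, i < n c}`,
`R' v = {(c, i) | c ∈ R v, i < n c}`. `|S' v| = ∑ n c ≥ w v / η - |S v| ≥ 2 s - |T| ≥ s`: choose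
a subset `S'' v` of exactly `s` elements. `|R' v| ≤ (∑ c ∈ R v, p c) / η ≤ τ 2^(z+1) / η = 4 τ s`;
`r = ⌊4 τ s⌋₊`, `8 r ≤ m s` from `32 τ ≤ m`. The sets `U` of the locality hypothesis are the same.
It gives `f_z`, and for `v ∈ X_z` some `(c, i) ∈ S'' v` with `(c, i) ∉ R' u` for `u ∈ X_z`,
`f_z u = f_z v`; as `i < n c`, `c ∉ R u`. Finally `f v = (z v mod (Λ + 1)) * (K * m) + f_{z v} v`
(`Int.emod`, `Int.toNat`): if `f v = f u` and `A v u`, the residues are equal and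
`|z v - z u| ≤ Λ`, so `z v = z u`, and `f_z v = f_z u`. -/
def S_LOC : Prop := ∀ (V T : Type) [Fintype V] [Fintype T] (A : V → V → Prop) (X : Finset V)
  (S R : V → Finset T) (p : T → ℝ) (τ Γ : ℝ) (d K Λ m : ℕ), (∀ c, 0 < p c) → 1 ≤ τ →
  (∀ v ∈ X, (S v).Nonempty) → (∀ v ∈ X, Disjoint (S v) (R v)) →
  (∀ v ∈ X, ∑ c ∈ R v, p c ≤ τ * ∑ c ∈ S v, p c) → (∀ v u, A v u → A u v) →
  (∀ v ∈ X, ∀ u ∈ X, A v u → ∑ c ∈ S v, p c ≤ Γ * ∑ c ∈ S u, p c) → Γ ≤ 2 ^ Λ → 1 ≤ d →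
  (∀ v ∈ X, ∃ U : Finset V, U.card ≤ d ∧ ∀ u ∈ X, ∀ c, (c ∈ S v ∨ c ∈ R v) →
    (c ∈ S u ∨ c ∈ R u) → u ∈ U) → 4 * d ≤ 2 ^ K → 32 * τ ≤ m →
  ∃ f : V → ℕ, ∀ v ∈ X, f v < (Λ + 1) * (K * m) ∧
    ∃ c ∈ S v, ∀ u ∈ X, A v u → f v = f u → c ∉ R u

/-- PACKAGE LEVEL (60 minutes): `S_BRW → S_LOC → S_LEVEL`.

HINT. If `Q = 0` there are no edges, all `Z a` are empty, `Gd = ∅`. (If `V` is empty: trivial.)
Centres `T = V × Fin Q`. For `c = (a, j)`: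
`E c = {y ∈ Z a | ψ a y = j}`, `R c = (R0 a ∩ (nb a).biUnion nb) \ E c`,
`B c = {(a', j') | a' = a ∨ a' is the end of a walk of length 3 from a}`, `|B c| ≤ Q (1 + D^3)`,
`β = 1 / (Q (1 + D^3))`, `A = t D + 1`. S_BRW gives `p`. From the second term:
`p c' ≤ (2 A / β) p c` for `c' ∈ B c`. For `y : V` let `S y = {c | y ∈ E c}` (at most `D` elements: `(a, j)`
with `a ∈ nb y`, `j = ψ a y`), `R' y = {c | y ∈ R c}`; disjoint. Let `Gd` be the set of `y` with `S y`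
nonempty and `∑ R' y ≤ τ ∑ S y` (sums of `p`). From the first term: for each `c`, at most
`2 A / τ` of the `y ∈ E c` are not in `Gd`; summing over `j`: `|Z a \ Gd| ≤ Q 2 A / τ`.
S_LOC with `A = G.Adj`, `X = Gd`, `Γ = D (2 A / β)`: if `y, v ∈ Gd` are adjacent, `c = (a, j) ∈ S y`,
`c' = (a', j') ∈ S v` then `a, y, v, a'` is a walk, so `p c ≤ (2 A / β) p c'`. Locality: all
centres in `S y`, `R' y` have their vertex `a` in the set `ball y` of the vertices at distance 1 or 2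
(see `ball`, `mem_ball`, `ball_symm`, `card_ball` in `Pool.Agent.U797.LV.Cells` and the end of
`class_colour` there), `d = ⌊(D + D^2)^2⌋₊`. For `y ∈ Gd` take `c = (a, j) ∈ S y` from S_LOC:
`y ∈ E c ⊆ Z a`; if `v ∈ Gd`, `G.Adj y v`, `f y = f v`, then `v ∉ R c`; `v ∉ E c` because
`ψ a y = ψ a v = j` would contradict that `ψ a` is proper; `v ∈ nb y`, `y ∈ nb a`; so `v ∉ R0 a`. -/
def S_LEVEL : Prop := ∀ (V : Type) [Fintype V] (G : SimpleGraph V) (D t τ : ℝ) (Q Λ K m : ℕ)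
  (ψ : V → V → ℕ) (W : Finset V) (Z R0 : V → Finset V), 1 ≤ D → 1 ≤ t → 1 ≤ τ →
  (∀ v, ((nb G v).card : ℝ) ≤ D) → (∀ a y, ψ a y < Q) →
  (∀ a y y', G.Adj a y → G.Adj a y' → G.Adj y y' → ψ a y ≠ ψ a y') →
  (∀ a, Z a ⊆ nb G a ∩ W) → (∀ a, ((R0 a).card : ℝ) ≤ t * D) →
  D * (2 * (t * D + 1) * (Q * (1 + D ^ 3))) ≤ 2 ^ Λ → 4 * (D + D ^ 2) ^ 2 ≤ (2 : ℝ) ^ K →
  32 * τ ≤ m →
  ∃ (Gd : Finset V) (f : V → ℕ), Gd ⊆ W ∧
    (∀ y ∈ Gd, f y < (Λ + 1) * (K * m) ∧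
      ∃ a, y ∈ Z a ∧ ∀ v ∈ Gd, G.Adj y v → f y = f v → v ∉ R0 a) ∧
    ∀ a, ((Z a \ Gd).card : ℝ) ≤ 2 * Q * (t * D + 1) / τ

/-- one step of the iteration (helper797: `S_R → S_EMB → S_POT → S_LEVEL → S_STEP`) -/
def S_STEP : Prop := ∀ (n k K : ℕ) (T : SimpleGraph (Fin (n + 1))), 1 ≤ k → 1 ≤ K → T.IsTree →
  ∃ E : ℕ, 1 ≤ E ∧ ∃ q0 : ℝ, 2 ≤ q0 ∧ ∃ c : ℕ → ℕ, (∀ i, 1 ≤ c i ∧ c i ≤ E) ∧ ∀ q : ℝ, q0 ≤ q →
  ∀ (V : Type) [Fintype V] (G : SimpleGraph V) (D : ℝ) (Q : ℕ) (ψ : V → V → ℕ), 1 ≤ D →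
    Real.log D ≤ q → (Q : ℝ) ≤ q →
    (∀ v, ((nb G v).card : ℝ) ≤ D) → G.CliqueFree k → ¬ T.IsIndContained G →
    (∀ a y, ψ a y < Q) →
    (∀ a y y', G.Adj a y → G.Adj a y' → G.Adj y y' → ψ a y ≠ ψ a y') →
    ∃ f : V → ℕ × ℕ, ∀ v, (f v).1 ≤ n + 1 ∧ ((f v).2 : ℝ) < q ^ (c (f v).1) ∧
      (((nb G v).filter (fun u => f u = f v)).card : ℝ) ≤ D / q ^ (K * c (f v).1)

/-- the result on the chromatic number -/
def S_CHI : Prop := ∀ (n k : ℕ) (T : SimpleGraph (Fin (n + 1))), 2 ≤ k → T.IsTree → ∀ ε : ℝ, 0 < ε →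
  ∃ C : ℝ, 1 ≤ C ∧ ∀ (V : Type) [Fintype V] (G : SimpleGraph V) (D : ℝ), 1 ≤ D →
    (∀ v, ((nb G v).card : ℝ) ≤ D) → G.CliqueFree k → ¬ T.IsIndContained G →
    G.Colorable ⌊C * D ^ ε⌋₊

/-- PACKAGE ITER2 (50 minutes): `S_STEP → S_CHI`.
HINT. Similar to `Pool.Agent.U312.NL.ITER` (the proof of `S_PROG → S_IND`), copy what is useful.
Induction on `k`. `k = 2`: no edges, one colour. Step from `k` to `k + 1`: given `ε`, let
`K' = ⌈2/ε⌉ + 1`, `K = 2 K'`, `E, q0, c` from S_STEP for `k + 1`, `K`; `ε' = ε / (2 E K)`, `C'` from the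
induction hypothesis for `k, ε'`. For a graph with bound `D0` put
`q = (q0 + 2 (n + 2) + 1 / ε' + 1) C' D0^ε'`; so `q ≥ q0`, `q ≥ 4 (n+2)`-like bounds (enlarge if needed),
`log D0 ≤ D0^ε' / ε' ≤ q` (`Real.log_le_rpow_div`), and every neighbourhood of `G` (and of
its induced subgraphs) has a proper colouring with `Q = ⌊C' D0^ε'⌋₊ ≤ q` colours (`ψ` as in
`main_tree` of `Pool.Agent.U797.LV.Main`).
Claim, by induction on `N`: every `G` with degrees `≤ D`, `1 ≤ D ≤ 2^N`, `D ≤ D0`, `T`-free, `K_(k+1)`-free, with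
such a `ψ`, is colourable with `⌊2 q^(E K) D^(1/K')⌋₊` colours. If `D < q^(E K)`: greedy, `⌊D⌋ + 1 ≤ 2 D`
(`low_colour` in `Pool.Agent.U797.LV.Cells`). Otherwise S_STEP gives `f`; for each value
`(i, j)` of `f` the graph induced on `f = (i, j)` has degrees at most `D' = D / q^(K c i) ≥ 1`, `D' ≤ D / 2`,
so it is colourable with at most `2 q^(E K) D^(1/K') q^(- 2 c i)` colours (`q^(K c i / K') = q^(2 c i)`); the
number of `j < q^(c i)` is at most `2 q^(c i)`; altogether the number of colours is at most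
`∑ i ≤ n + 1, 2 q^(c i) q^(- 2 c i) 2 q^(E K) D^(1/K') ≤ (n + 2) (2 / q) 2 q^(E K) D^(1/K')
≤ 2 q^(E K) D^(1/K')`. Finally `2 q^(E K) D0^(1/K') ≤ C D0^(ε/2 + ε/2)`. -/
def S_ITER2 : Prop := S_STEP → S_CHI

end Pool.Agent.U797.NL
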