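import Pool.Agent.U797.NL.Step2

set_option autoImplicit false

/-!
# One step of the iteration, with the dependence on the exponent
-/

namespace Pool.Agent.U797.NL

open Finset
open scoped Classical
open Pool.Agent.U797.LV (nb mem_nb)

/-- the bound of the costs -/
def EK (K n : ℕ) : ℕ := 1 + ∑ j ∈ range (n + 2), csu K j

theorem step_core (hR : S_R) (hP : S_POT) (hLev : S_LEVEL) {n k K : ℕ}
    {T : SimpleGraph (Fin (n + 1))} {b0 : ℝ} (hb0 : 1 ≤ b0)
    (hemb : ∀ b : ℝ, b0 ≤ b → ∀ (V : Type) [Fintype V] (G : SimpleGraph V),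
      G.CliqueFree k → ∀ (v : V) (C : Finset V), C.Nonempty → Rich G b (n + 1) b v C →
      T.IsIndContained G) :
    ∃ c : ℕ → ℕ, (∀ i, 1 ≤ c i ∧ c i ≤ EK K n) ∧ ∀ q : ℝ, b0 + 60 + 3 * (1 + (EK K n : ℝ)) ≤ q →
  ∀ (V : Type) [Fintype V] (G : SimpleGraph V) (D : ℝ) (Q : ℕ) (ψ : V → V → ℕ), 1 ≤ D →
    Real.log D ≤ q → (Q : ℝ) ≤ q →
    (∀ v, ((nb G v).card : ℝ) ≤ D) → G.CliqueFree k → ¬ T.IsIndContained G →
    (∀ a y, ψ a y < Q) →
    (∀ a y y', G.Adj a y → G.Adj a y' → G.Adj y y' → ψ a y ≠ ψ a y') →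
    ∃ f : V → ℕ × ℕ, ∀ v, (f v).1 ≤ n + 1 ∧ ((f v).2 : ℝ) < q ^ (c (f v).1) ∧
      (((nb G v).filter (fun u => f u = f v)).card : ℝ) ≤ D / q ^ (K * c (f v).1) := by
  obtain ⟨E, hEd⟩ : ∃ E : ℕ, E = 1 + ∑ j ∈ range (n + 2), csu K j := ⟨_, rfl⟩
  have hEK : EK K n = E := hEd.symm
  rw [hEK]
  have hcE : ∀ j < n + 2, csu K j ≤ E := by
    intro j hj
    rw [hEd]
    have := single_le_sum (f := fun j => csu K j) (fun j _ => Nat.zero_le _) (mem_range.2 hj)
    omega
  have hE1 : 1 ≤ E := by omega
  refine ⟨fun i => if i = 0 then 1 else csu K (n + 1 - i), ?_, ?_⟩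
  · intro i
    dsimp only
    split_ifs with h
    · exact ⟨le_rfl, hE1⟩
    · refine ⟨?_, hcE _ (by omega)⟩
      unfold csu
      omega
  intro q hq V _ G D Q ψ hD hlogD hQ hdeg hfree hTG hψ hprop
  have hE0 : (0 : ℝ) ≤ E := Nat.cast_nonneg _
  have hq33 : 33 ≤ q := by linarith
  have hqE : 3 * (1 + (E : ℝ)) ≤ q := by linarith
  have hqE2 : 2 * (E : ℝ) + 60 ≤ q := by linarith
  have hqb : b0 ≤ q := by linarith
  have hq0 : 0 < q := by linarith
  have hq1 : 1 ≤ q := by linarith
  have hD0 : 0 < D := by linarith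
  -- the level sets
  obtain ⟨bp, hbp⟩ : ∃ bp : ℕ → ℝ, bp = fun i => q ^ (1 + (su K (n + 1 - i)).2) := ⟨_, rfl⟩
  have hbp0 : ∀ i, 0 < bp i := by
    intro i
    rw [hbp]
    positivity
  choose Lv hL1 hL2 hL3 using fun i v => exists_max hR G hq0 i (hbp0 i) v
  have hLh : ∀ v, Lv (n + 1) v = ∅ := by
    intro v
    by_contra h
    have h1 := hL2 (n + 1) v
    have h2 : bp (n + 1) = q := by
      rw [hbp]
      simp [su]
    rw [h2] at h1
    exact hTG (hemb q hqb V G hfree v _ (nonempty_iff_ne_empty.2 h) h1)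
  have hL0 : ∀ v, nb G v \ Lv 0 v = ∅ := by
    intro v
    by_contra h
    exact hL3 0 v _ (subset_refl _) (nonempty_iff_ne_empty.2 h) sdiff_subset
  -- the invariant
  have inv : ∀ i ≤ n + 1, ∃ (W : Finset V) (F : V → ℕ × ℕ),
      (∀ v, (((nb G v ∩ W) \ Lv i v).card : ℝ) ≤ (q ^ (su K (n + 1 - i)).1)⁻¹ * D) ∧
      ∀ v, v ∉ W → 1 ≤ (F v).1 ∧ (F v).1 ≤ i ∧ ((F v).2 : ℝ) < q ^ (csu K (n + 1 - (F v).1)) ∧
        (((nb G v).filter (fun u => u ∉ W ∧ F u = F v)).card : ℝ) ≤
          D / q ^ (K * csu K (n + 1 - (F v).1)) := by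
    intro i
    induction i with
    | zero =>
      intro _
      refine ⟨univ, fun _ => (0, 0), ?_, fun v hv => absurd (mem_univ v) hv⟩
      intro v
      rw [inter_univ, hL0 v, card_empty, Nat.cast_zero]
      positivity
    | succ i ih =>
      intro hi
      obtain ⟨W, F, hW1, hW2⟩ := ih (by omega)
      obtain ⟨j, hj⟩ : ∃ j, n + 1 - (i + 1) = j := ⟨_, rfl⟩
      have hj' : n + 1 - i = j + 1 := by omega
      obtain ⟨A, hA⟩ : ∃ A, A = (su K j).1 := ⟨_, rfl⟩
      obtain ⟨e, he⟩ : ∃ e, e = (su K j).2 := ⟨_, rfl⟩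
      obtain ⟨c, hc⟩ : ∃ c, c = csu K j := ⟨_, rfl⟩
      have hc' : c = 2 * A + e + 11 := by
        rw [hc, hA, he]
        rfl
      obtain ⟨A', hA'⟩ : ∃ A', A' = K * c + 1 := ⟨_, rfl⟩
      have hst1 : (su K (j + 1)).1 = A' := by
        rw [hA', hc]
        rfl
      have hst2 : (su K (j + 1)).2 = A' := by
        rw [hA', hc]
        rfl
      have hbpi : bp i = q ^ (1 + A') := by
        rw [hbp]
        dsimp only
        rw [hj', hst2]
      have hbpi1 : bp (i + 1) = q ^ (1 + e) := by
        rw [hbp]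
        dsimp only
        rw [hj, ← he]
      rw [hj', hst1] at hW1
      rw [hj, ← hA]
      have hcE' : c ≤ E := by
        rw [hc]
        exact hcE j (by omega)
      have hAe : (A : ℝ) + e ≤ E := by
        have : A + e ≤ E := by omega
        exact_mod_cast this
      have hA'E : (A' : ℝ) ≤ E := by
        have h1 := hcE (j + 1) (by omega)
        have h2 : A' ≤ csu K (j + 1) := by
          unfold csu
          rw [hst1]
          omega
        exact_mod_cast h2.trans h1
      obtain ⟨η, hη⟩ : ∃ η : ℝ, η = (q ^ A')⁻¹ := ⟨_, rfl⟩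
      have hη0 : 0 < η := by rw [hη]; positivity
      have hη1 : η ≤ 1 := by
        rw [hη]
        exact inv_le_one_of_one_le₀ (one_le_pow₀ hq1)
      have hlog : Real.log (1 / η) ≤ A' * q := by
        rw [hη, one_div, inv_inv, Real.log_pow]
        apply mul_le_mul_of_nonneg_left _ (Nat.cast_nonneg _)
        have := Real.log_le_sub_one_of_pos hq0
        linarith
      have hlog0 : 0 ≤ Real.log (1 / η) := by
        apply Real.log_nonneg
        rw [one_div]
        exact (one_le_inv₀ hη0).2 hη1
      obtain ⟨lam, hlam⟩ : ∃ lam : ℝ, lam = (q ^ A)⁻¹ / 2 := ⟨_, rfl⟩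
      have hlam0 : 0 < lam := by rw [hlam]; positivity
      obtain ⟨X0, hX0⟩ : ∃ X0 : ℝ, X0 = 2 * q ^ A * (q ^ (1 + e) * (1 + Real.log (1 / η))) :=
        ⟨_, rfl⟩
      have hX00 : 0 ≤ X0 := by rw [hX0]; positivity
      obtain ⟨Tn, hTn⟩ : ∃ Tn : ℕ, Tn = ⌈X0⌉₊ := ⟨_, rfl⟩
      have hTn1 : X0 ≤ (Tn : ℝ) := by
        rw [hTn]
        exact Nat.le_ceil _
      have hTn2 : (Tn : ℝ) ≤ q ^ (e + A + 3) := by
        have h1 : (Tn : ℝ) ≤ X0 + 1 := by
          rw [hTn]
          exact (Nat.ceil_lt_add_one hX00).le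
        have h2 : q ^ (1 + e) * (1 + Real.log (1 / η)) ≤ q ^ (1 + e) * (1 + E * q) := by
          apply mul_le_mul_of_nonneg_left _ (by positivity)
          have : (A' : ℝ) * q ≤ E * q := mul_le_mul_of_nonneg_right hA'E hq0.le
          linarith
        have h3 : (1 : ℝ) ≤ q ^ A * (q ^ (1 + e) * (1 + E * q)) := by
          have h4 : (1 : ℝ) ≤ q ^ (1 + e) := one_le_pow₀ hq1
          have h4' : (1 : ℝ) ≤ q ^ A := one_le_pow₀ hq1
          have h5 : (1 : ℝ) ≤ 1 + E * q := by
            have : 0 ≤ (E : ℝ) * q := by positivity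
            linarith
          have h6 : (1 : ℝ) ≤ q ^ (1 + e) * (1 + E * q) := by nlinarith
          nlinarith
        have h6 : 3 * (1 + (E : ℝ) * q) ≤ q * q := by
          have h7 : 1 + (E : ℝ) * q ≤ (1 + E) * q := by nlinarith
          calc 3 * (1 + (E : ℝ) * q) ≤ 3 * ((1 + E) * q) := by linarith
            _ = (3 * (1 + E)) * q := by ring
            _ ≤ q * q := mul_le_mul_of_nonneg_right hqE hq0.le
        have h8 : X0 ≤ 2 * (q ^ A * (q ^ (1 + e) * (1 + E * q))) := by
          rw [hX0]
          calc 2 * q ^ A * (q ^ (1 + e) * (1 + Real.log (1 / η))) ≤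
              2 * q ^ A * (q ^ (1 + e) * (1 + E * q)) :=
                mul_le_mul_of_nonneg_left h2 (by positivity)
            _ = _ := by ring
        calc (Tn : ℝ) ≤ 3 * (q ^ A * (q ^ (1 + e) * (1 + E * q))) := by linarith
          _ = q ^ A * (q ^ (1 + e) * (3 * (1 + E * q))) := by ring
          _ ≤ q ^ A * (q ^ (1 + e) * (q * q)) := by
            apply mul_le_mul_of_nonneg_left _ (by positivity)
            exact mul_le_mul_of_nonneg_left h6 (by positivity)
          _ = q ^ (e + A + 3) := by ring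
      obtain ⟨Z, hZ⟩ : ∃ Z : V → Finset V, Z = fun a => (nb G a ∩ W) \ Lv (i + 1) a := ⟨_, rfl⟩
      have hpot : ∀ a, ∃ U : Finset V, U.card ≤ Tn ∧
          (((Z a).filter (fun y => η * ((Lv i y).card : ℝ) <
            ((Lv i y \ U.biUnion (nb G)).card : ℝ))).card : ℝ) ≤ lam * ((Z a).card : ℝ) := by
        intro a
        apply hP V G i Tn q (bp i) (bp (i + 1)) η lam a (Lv i) (Z a) hq0 (hbp0 _) (hbp0 _) hη0 hη1
          hlam0
        · rw [hbpi, hη, pow_add, pow_one]
          field_simp
          exact le_rfl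
        · rw [hZ]
          exact sdiff_subset.trans inter_subset_left
        · intro y _
          exact hL2 i y
        · intro C hC hCn
          apply hL3 (i + 1) a C _ hCn
          rw [hZ] at hC
          exact hC.trans (sdiff_subset_sdiff inter_subset_left (subset_refl _))
        · rw [hbpi1]
          have h1 : q ^ (1 + e) * (1 + Real.log (1 / η)) = lam * X0 := by
            rw [hlam, hX0]
            field_simp
          rw [h1]
          exact mul_le_mul_of_nonneg_left hTn1 hlam0.le
      choose Uc hUc1 hUc2 using hpot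
      obtain ⟨R, hR'⟩ : ∃ R : V → Finset V, R = fun a => (Uc a).biUnion (nb G) := ⟨_, rfl⟩
      obtain ⟨Dd, hDd⟩ : ∃ Dd : V → Finset V, Dd = fun a => (Z a).filter (fun y =>
          ¬ η * ((Lv i y).card : ℝ) < ((Lv i y \ R a).card : ℝ)) := ⟨_, rfl⟩
      have hRc : ∀ a, ((R a).card : ℝ) ≤ q ^ (e + A + 3) * D := by
        intro a
        have h1 : (R a).card ≤ ∑ u ∈ Uc a, (nb G u).card := by
          rw [hR']
          exact card_biUnion_le
        calc ((R a).card : ℝ) ≤ ((∑ u ∈ Uc a, (nb G u).card : ℕ) : ℝ) := by exact_mod_cast h1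
          _ = ∑ u ∈ Uc a, ((nb G u).card : ℝ) := by push_cast; rfl
          _ ≤ ∑ u ∈ Uc a, D := sum_le_sum fun u _ => hdeg u
          _ = ((Uc a).card : ℝ) * D := by rw [sum_const, nsmul_eq_mul]
          _ ≤ (Tn : ℝ) * D := by
            apply mul_le_mul_of_nonneg_right _ hD0.le
            exact_mod_cast hUc1 a
          _ ≤ q ^ (e + A + 3) * D := mul_le_mul_of_nonneg_right hTn2 hD0.le
      obtain ⟨Λ, Kk, m, hp1, hp2, hp3, hp4⟩ := params hq33 hD hlogD hQ hAe hqE2
      obtain ⟨Gd, f, hG1, hG2, hG3⟩ := hLev V G D (q ^ (e + A + 3)) (q ^ (2 * A + e + 5)) Q Λ Kk m ψ W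
        Dd R hD (one_le_pow₀ hq1) (one_le_pow₀ hq1) hdeg hψ hprop (by
          intro a
          rw [hDd, hZ]
          exact (filter_subset _ _).trans sdiff_subset) hRc hp1 hp2 hp3
      obtain ⟨F', hF1, hF2⟩ : ∃ F' : V → ℕ × ℕ, (∀ v ∈ W, F' v = (i + 1, f v)) ∧
          ∀ v, v ∉ W → F' v = F v :=
        ⟨fun v => if v ∈ W then (i + 1, f v) else F v, fun v hv => if_pos hv, fun v hv => if_neg hv⟩
      refine ⟨W \ Gd, F', ?_, ?_⟩
      · -- few remaining neighbours outside the level sets
        intro v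
        have h1 : (nb G v ∩ (W \ Gd)) \ Lv (i + 1) v ⊆
            (Z v).filter (fun y => η * ((Lv i y).card : ℝ) <
              ((Lv i y \ (Uc v).biUnion (nb G)).card : ℝ)) ∪ (Dd v \ Gd) := by
          intro y hy
          rw [mem_sdiff, mem_inter, mem_sdiff] at hy
          obtain ⟨⟨h2, h3, h4⟩, h5⟩ := hy
          have h6 : y ∈ Z v := by
            rw [hZ, mem_sdiff, mem_inter]
            exact ⟨⟨h2, h3⟩, h5⟩
          rw [mem_union, mem_filter]
          by_cases h7 : η * ((Lv i y).card : ℝ) < ((Lv i y \ (Uc v).biUnion (nb G)).card : ℝ)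
          · exact Or.inl ⟨h6, h7⟩
          · right
            rw [mem_sdiff, hDd, mem_filter]
            refine ⟨⟨h6, ?_⟩, h4⟩
            rw [hR']
            exact h7
        have h2 : (((nb G v ∩ (W \ Gd)) \ Lv (i + 1) v).card : ℝ) ≤
            (((Z v).filter (fun y => η * ((Lv i y).card : ℝ) <
              ((Lv i y \ (Uc v).biUnion (nb G)).card : ℝ))).card : ℝ) + ((Dd v \ Gd).card : ℝ) := by
          exact_mod_cast (card_le_card h1).trans (card_union_le _ _)
        have h3 := hUc2 v
        have h4 := hG3 v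
        have h5 : ((Z v).card : ℝ) ≤ D := by
          refine le_trans ?_ (hdeg v)
          have : Z v ⊆ nb G v := by
            rw [hZ]
            exact sdiff_subset.trans inter_subset_left
          exact_mod_cast card_le_card this
        have h6 : lam * ((Z v).card : ℝ) ≤ lam * D := mul_le_mul_of_nonneg_left h5 hlam0.le
        have h7 : 2 * (Q : ℝ) * (q ^ (e + A + 3) * D + 1) / q ^ (2 * A + e + 5) ≤ lam * D := by
          rw [div_le_iff₀ (by positivity), hlam]
          have h8 : (q ^ A)⁻¹ / 2 * D * q ^ (2 * A + e + 5) = (1 / 2) * (q * q) * q ^ (e + A + 3) * D := by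
            have h9 : q ^ (2 * A + e + 5) = q ^ A * (q ^ (e + A + 3) * (q * q)) := by ring
            rw [h9]
            field_simp
          rw [h8]
          have h10 : (1 : ℝ) ≤ q ^ (e + A + 3) := one_le_pow₀ hq1
          obtain ⟨t, ht⟩ : ∃ t : ℝ, t = q ^ (e + A + 3) := ⟨_, rfl⟩
          rw [← ht] at h10 ⊢
          have h11 : t * D + 1 ≤ 2 * (t * D) := by nlinarith
          calc 2 * (Q : ℝ) * (t * D + 1) ≤ 2 * q * (2 * (t * D)) :=
                mul_le_mul (by linarith) h11 (by positivity) (by positivity)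
            _ = 4 * (q * t * D) := by ring
            _ ≤ (q / 2) * (q * t * D) := by
              apply mul_le_mul_of_nonneg_right _ (by positivity)
              linarith
            _ = (1 / 2) * (q * q) * t * D := by ring
        have h12 : (q ^ A)⁻¹ * D = lam * D + lam * D := by
          rw [hlam]
          ring
        rw [h12]
        linarith
      · -- the coloured vertices
        intro v hv
        by_cases hvW : v ∈ W
        · have hvG : v ∈ Gd := by
            by_contra h
            exact hv (mem_sdiff.2 ⟨hvW, h⟩)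
          rw [hF1 v hvW]
          dsimp only
          rw [hj, ← hc]
          obtain ⟨hf1, a, ha1, ha2⟩ := hG2 v hvG
          refine ⟨by omega, le_rfl, ?_, ?_⟩
          · have h1 : ((f v : ℕ) : ℝ) < (((Λ + 1) * (Kk * m) : ℕ) : ℝ) := by exact_mod_cast hf1
            rw [hc']
            exact lt_of_lt_of_le h1 hp4
          · have h1 : (nb G v).filter (fun u => u ∉ W \ Gd ∧ F' u = (i + 1, f v)) ⊆
                (Lv i v \ R a) ∪ ((nb G v ∩ W) \ Lv i v) := by
              intro u hu
              rw [mem_filter] at hu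
              obtain ⟨h2, h3, h4⟩ := hu
              have huW : u ∈ W := by
                by_contra h5
                rw [hF2 u h5] at h4
                have h6 := (hW2 u h5).2.1
                rw [h4] at h6
                dsimp only at h6
                omega
              have huG : u ∈ Gd := by
                by_contra h
                exact h3 (mem_sdiff.2 ⟨huW, h⟩)
              rw [hF1 u huW] at h4
              have h5 : f v = f u := (Prod.ext_iff.1 h4).2.symm
              have h6 := ha2 u huG (mem_nb.1 h2) h5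
              rw [mem_union, mem_sdiff, mem_sdiff, mem_inter]
              by_cases h7 : u ∈ Lv i v
              · exact Or.inl ⟨h7, h6⟩
              · exact Or.inr ⟨⟨h2, huW⟩, h7⟩
            have h2 : (((nb G v).filter (fun u => u ∉ W \ Gd ∧ F' u = (i + 1, f v))).card : ℝ) ≤
                ((Lv i v \ R a).card : ℝ) + (((nb G v ∩ W) \ Lv i v).card : ℝ) := by
              exact_mod_cast (card_le_card h1).trans (card_union_le _ _)
            refine h2.trans ?_
            have h3 : ((Lv i v \ R a).card : ℝ) ≤ η * D := by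
              rw [hDd, mem_filter, not_lt] at ha1
              refine ha1.2.trans ?_
              apply mul_le_mul_of_nonneg_left _ hη0.le
              refine le_trans ?_ (hdeg v)
              exact_mod_cast card_le_card (hL1 i v)
            have h4 := hW1 v
            rw [← hη] at h4
            have h5 : D / q ^ (K * c) = q * (η * D) := by
              rw [hη, hA', pow_succ]
              field_simp
            rw [h5]
            have h6 : 0 ≤ η * D := by positivity
            nlinarith
        · rw [hF2 v hvW]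
          obtain ⟨h1, h2, h3, h4⟩ := hW2 v hvW
          refine ⟨h1, by omega, h3, ?_⟩
          refine le_trans ?_ h4
          have h5 : (nb G v).filter (fun u => u ∉ W \ Gd ∧ F' u = F v) ⊆
              (nb G v).filter (fun u => u ∉ W ∧ F u = F v) := by
            intro u hu
            rw [mem_filter] at hu ⊢
            obtain ⟨h6, h7, h8⟩ := hu
            have huW : u ∉ W := by
              intro h9
              rw [hF1 u h9] at h8
              rw [← h8] at h2
              dsimp only at h2
              omega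
            rw [hF2 u huW] at h8
            exact ⟨h6, huW, h8⟩
          exact_mod_cast card_le_card h5
  obtain ⟨W, F, hW1, hW2⟩ := inv (n + 1) le_rfl
  obtain ⟨F', hF1, hF2⟩ : ∃ F' : V → ℕ × ℕ, (∀ v ∈ W, F' v = (0, 0)) ∧
      ∀ v, v ∉ W → F' v = F v :=
    ⟨fun v => if v ∈ W then (0, 0) else F v, fun v hv => if_pos hv, fun v hv => if_neg hv⟩
  refine ⟨F', ?_⟩
  intro v
  by_cases hvW : v ∈ W
  · rw [hF1 v hvW]
    simp only [if_true]
    refine ⟨Nat.zero_le _, ?_, ?_⟩
    · rw [Nat.cast_zero]
      positivity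
    · have h1 : (nb G v).filter (fun u => F' u = (0, 0)) ⊆
          (nb G v ∩ W) \ Lv (n + 1) v := by
        intro u hu
        rw [mem_filter] at hu
        obtain ⟨h2, h3⟩ := hu
        rw [hLh, sdiff_empty, mem_inter]
        refine ⟨h2, ?_⟩
        by_contra h4
        rw [hF2 u h4] at h3
        have h5 := (hW2 u h4).1
        rw [h3] at h5
        exact absurd h5 (by norm_num)
      have h2 : (((nb G v).filter (fun u => F' u = (0, 0))).card : ℝ) ≤
          (((nb G v ∩ W) \ Lv (n + 1) v).card : ℝ) := by exact_mod_cast card_le_card h1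
      refine h2.trans ((hW1 v).trans ?_)
      rw [Nat.sub_self, mul_one, div_eq_mul_inv, mul_comm]
      apply mul_le_mul_of_nonneg_left _ hD0.le
      apply inv_anti₀ (by positivity)
      exact pow_le_pow_right₀ hq1 (by simp [su])
  · rw [hF2 v hvW]
    dsimp only
    obtain ⟨h1, h2, h3, h4⟩ := hW2 v hvW
    have h0 : (F v).1 ≠ 0 := by omega
    refine ⟨h2, ?_, ?_⟩
    · rw [if_neg h0]
      exact h3
    · rw [if_neg h0]
      refine le_trans ?_ h4
      have h5 : (nb G v).filter (fun u => F' u = F v) ⊆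
          (nb G v).filter (fun u => u ∉ W ∧ F u = F v) := by
        intro u hu
        rw [mem_filter] at hu ⊢
        obtain ⟨h6, h8⟩ := hu
        have huW : u ∉ W := by
          intro h9
          rw [hF1 u h9] at h8
          rw [← h8] at h0
          exact h0 rfl
        rw [hF2 u huW] at h8
        exact ⟨h6, huW, h8⟩
      exact_mod_cast card_le_card h5

end Pool.Agent.U797.NL
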